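import Pool.Agent.Q145.JA.Filt

/-!
# The properties of a Bloch-Beilinson filtration, and natural decompositions
-/

set_option autoImplicit false
set_option linter.unusedSectionVars false

namespace Pool.Agent.Q145.JA

open Finset FF Pool.Agent.Q70.CH Pool.Agent.Q145.NC

noncomputable section

variable {k : Type} [Field k] [CharZero k] {J : Type} {K : J → Type} [∀ j, Field (K j)]
  [∀ j, Algebra k (K j)] [∀ j, IsFF k (K j)] {N M : J → Type}

/-- Properties of the filtration on the zero-cycles of `X = ∏ J(C_j) ^ (N j)` which follow from those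
of a Bloch-Beilinson filtration: it is a finite descending filtration, `F^0` is everything and the
steps contain the zero-cycles rationally equivalent to zero; the translations act as the identity on
the graded pieces and the multiplication by `n` acts on the `i`-th one as `n ^ i`. -/
structure IsBBJ (k : Type) [Field k] [CharZero k] {J : Type} (K : J → Type) [∀ j, Field (K j)]
    [∀ j, Algebra k (K j)] [∀ j, IsFF k (K j)] (N : J → Type)
    (G : ℕ → Submodule ℚ ((∀ j, N j → JPt k (K j)) →₀ ℚ)) : Prop where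
  top : G 0 = ⊤
  rat : ∀ i, ratTriv (prodJ (k := k) K N) ≤ G i
  anti : ∀ i, G (i + 1) ≤ G i
  fin : ∃ n, G n ≤ ratTriv (prodJ (k := k) K N)
  trans : ∀ i, ∀ z ∈ G i, ∀ a, z.mapDomain (fun x => x + a) - z ∈ G (i + 1)
  mul : ∀ i, ∀ z ∈ G i, ∀ n : ℤ, z.mapDomain (fun x => n • x) - ((n : ℚ) ^ i) • z ∈ G (i + 1)

lemma IsBBJ.anti' {G : ℕ → Submodule ℚ ((∀ j, N j → JPt k (K j)) →₀ ℚ)} (h : IsBBJ k K N G)
    {i i' : ℕ} (hi : i ≤ i') : G i' ≤ G i :=
  (antitone_nat_of_succ_le h.anti) hi

lemma pont_trans {Y : Type} [AddCommGroup Y] {i : ℕ} (a : Fin i → Y) (x y : Y) :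
    (pont a x).mapDomain (fun x => x + y) = pont a (x + y) := by
  unfold pont
  rw [Finsupp.mapDomain_finsetSum]
  apply Finset.sum_congr rfl
  intro B _
  rw [Finsupp.mapDomain_smul, Finsupp.mapDomain_single]
  congr 2
  abel

lemma IsBBJ.ge {G : ℕ → Submodule ℚ ((∀ j, N j → JPt k (K j)) →₀ ℚ)} (h : IsBBJ k K N G) (i : ℕ) :
    filJ k K N i ≤ G i := by
  unfold filJ
  refine sup_le (h.rat i) ?_
  rw [Submodule.span_le]
  rintro _ ⟨a, x, rfl⟩
  rw [SetLike.mem_coe]
  have key : ∀ i (a : Fin i → ∀ j, N j → JPt k (K j)) (x : ∀ j, N j → JPt k (K j)),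
      pont a x ∈ G i := by
    intro i
    induction i with
    | zero =>
      intro a x
      rw [h.top]
      trivial
    | succ i ih =>
      intro a x
      rw [pont_succ, ← pont_trans, ← neg_sub]
      exact Submodule.neg_mem _ (h.trans i _ (ih _ _) _)
  exact key i a x

section poly

open Polynomial

variable {V : Type} [AddCommGroup V] [Module ℚ V]

/-- an abstract argument on eigenspaces: if `T` acts as `2 ^ s` on the graded pieces of two
filtrations then they are equal -/
lemma eigen (T : V →ₗ[ℚ] V) (G H : ℕ → Submodule ℚ V) (R : Submodule ℚ V) (hR : ∀ i, R ≤ H i)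
    (hRT : ∀ z ∈ R, T z ∈ R)
    (hG : ∀ i, ∀ z ∈ G i, T z - (2 : ℚ) ^ i • z ∈ G (i + 1)) (hGf : ∃ n, ∀ n' ≥ n, G n' ≤ R)
    (hH : ∀ i, ∀ z ∈ H i, T z - (2 : ℚ) ^ i • z ∈ H (i + 1)) (hH0 : H 0 = ⊤)
    (hHa : ∀ i, H (i + 1) ≤ H i) (i : ℕ) : G i ≤ H i := by
  intro z hz
  obtain ⟨n, hn⟩ := hGf
  let P : ℚ[X] := ∏ s ∈ Finset.Ico i (i + n), (X - C ((2 : ℚ) ^ s))
  let Q : ℚ[X] := ∏ s ∈ Finset.range i, (X - C ((2 : ℚ) ^ s))
  have hPQ : IsCoprime P Q := by
    refine IsCoprime.prod_left (fun s hs => IsCoprime.prod_right (fun t ht => ?_))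
    apply isCoprime_X_sub_C_of_isUnit_sub
    rw [isUnit_iff_ne_zero, sub_ne_zero]
    intro hc
    rw [Finset.mem_Ico] at hs
    rw [Finset.mem_range] at ht
    have := pow_right_injective₀ (a := (2 : ℚ)) (by norm_num) (by norm_num) hc
    omega
  have hX : ∀ (c : ℚ) (y : V), aeval T (X - C c) y = T y - c • y := by
    intro c y
    rw [map_sub, aeval_X, aeval_C, LinearMap.sub_apply, Module.algebraMap_end_apply]
  have hP : ∀ m, aeval T (∏ s ∈ Finset.Ico i (i + m), (X - C ((2 : ℚ) ^ s))) z ∈ G (i + m) := by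
    intro m
    induction m with
    | zero => simpa using hz
    | succ m ih =>
      rw [← add_assoc, Finset.prod_Ico_succ_top (by omega), mul_comm, map_mul, Module.End.mul_apply,
        hX]
      exact hG _ _ ih
  have hQ : aeval T Q z ∈ H i := by
    have : ∀ m, aeval T (∏ s ∈ Finset.range m, (X - C ((2 : ℚ) ^ s))) z ∈ H m := by
      intro m
      induction m with
      | zero => rw [hH0]; trivial
      | succ m ih =>
        rw [Finset.prod_range_succ, mul_comm, map_mul, Module.End.mul_apply, hX]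
        exact hH _ _ ih
    exact this i
  have hTH : ∀ z ∈ H i, T z ∈ H i := by
    intro z hz
    have h1 := hHa i (hH i z hz)
    have h2 : T z = (T z - (2 : ℚ) ^ i • z) + (2 : ℚ) ^ i • z := by abel
    rw [h2]
    exact Submodule.add_mem _ h1 (Submodule.smul_mem _ _ hz)
  have haev : ∀ (S : Submodule ℚ V), (∀ z ∈ S, T z ∈ S) → ∀ (A : ℚ[X]), ∀ z ∈ S, aeval T A z ∈ S := by
    intro S hS A z hz
    induction A using Polynomial.induction_on' with
    | add p q hp hq =>
      rw [map_add, LinearMap.add_apply]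
      exact Submodule.add_mem _ hp hq
    | monomial n a =>
      rw [aeval_monomial]
      change a • ((T ^ n) z) ∈ S
      apply Submodule.smul_mem
      clear a
      induction n with
      | zero => simpa using hz
      | succ n ih =>
        rw [pow_succ', Module.End.mul_apply]
        exact hS _ ih
  obtain ⟨A, B, hAB⟩ := hPQ
  have h1 : z = aeval T A (aeval T P z) + aeval T B (aeval T Q z) := by
    have h2 := congrArg (fun p => aeval T p z) hAB
    simp only [map_add, map_mul, LinearMap.add_apply, Module.End.mul_apply, map_one,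
      Module.End.one_apply] at h2
    exact h2.symm
  rw [h1]
  apply Submodule.add_mem
  · apply hR i
    apply haev R hRT
    exact hn _ (by omega) (hP n)
  · exact haev (H i) hTH B _ hQ

end poly

variable [IsAlgClosed k]

/-- the multiplication by `n` and the translation by `a` -/
def scal (n : ℤ) (a : ∀ j, N j → JPt k (K j)) : AMap k K N N where
  A := fun _ q m => by classical exact if q = m then n else 0
  t := a

lemma scal_map [∀ j, Fintype (N j)] (n : ℤ) (a x : ∀ j, N j → JPt k (K j)) :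
    (scal n a).map x = n • x + a := by
  classical
  ext1 j
  ext1 q
  unfold AMap.map scal
  simp only [Pi.add_apply, Pi.smul_apply]
  congr 1
  rw [Finset.sum_eq_single q]
  · rw [if_pos rfl]
  · intro m _ hm
    rw [if_neg hm.symm, zero_smul]
  · intro hc; exact absurd (Finset.mem_univ _) hc

lemma scal_lin {g : J → ℕ} [∀ j, Fintype (N j)] (n : ℤ) (a : ∀ j, N j → JPt k (K j))
    (v : TS k g N) : linT (k := k) (g := g) (scal (k := k) (K := K) n a).A v = (n : k) • v := by
  classical
  ext j q c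
  change (∑ m, (((if q = m then n else 0 : ℤ)) : k) • v j m) c = _
  rw [Finset.sum_eq_single q]
  · rw [if_pos rfl]
    rfl
  · intro m _ hm
    rw [if_neg hm.symm, Int.cast_zero, zero_smul]
  · intro hc; exact absurd (Finset.mem_univ _) hc

lemma filJ_trans {g : J → ℕ} (hg : ∀ j, IsGenus k (K j) (g j)) [Finite J] [∀ j, Fintype (N j)]
    {i : ℕ} {z : (∀ j, N j → JPt k (K j)) →₀ ℚ} (hz : z ∈ filJ k K N i)
    (a : ∀ j, N j → JPt k (K j)) : z.mapDomain (fun x => x + a) - z ∈ filJ k K N (i + 1) := by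
  have h := mainJ hg (i := i) (R := Fin 2) ![1, -1] ![scal 1 a, scal 1 0] (by
    intro φ v
    rw [Fin.sum_univ_two]
    simp only [Matrix.cons_val_zero, Matrix.cons_val_one, scal_lin]
    push_cast
    ring) z hz
  rw [Fin.sum_univ_two] at h
  simp only [Matrix.cons_val_zero, Matrix.cons_val_one, one_smul, neg_smul] at h
  have h1 : (scal 1 a : AMap k K N N).map = fun x => x + a := by
    ext1 x; rw [scal_map, one_smul]
  have h2 : (scal 1 0 : AMap k K N N).map = id := by
    ext1 x; rw [scal_map, one_smul, add_zero]; rfl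
  rw [h1, h2, Finsupp.mapDomain_id, ← sub_eq_add_neg] at h
  exact h

lemma filJ_mul {g : J → ℕ} (hg : ∀ j, IsGenus k (K j) (g j)) [Finite J] [∀ j, Fintype (N j)]
    {i : ℕ} {z : (∀ j, N j → JPt k (K j)) →₀ ℚ} (hz : z ∈ filJ k K N i) (n : ℤ) :
    z.mapDomain (fun x => n • x) - ((n : ℚ) ^ i) • z ∈ filJ k K N (i + 1) := by
  have h := mainJ hg (i := i) (R := Fin 2) ![1, -(n : ℚ) ^ i] ![scal n 0, scal 1 0] (by
    intro φ v
    rw [Fin.sum_univ_two]
    simp only [Matrix.cons_val_zero, Matrix.cons_val_one, scal_lin]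
    rw [φ.map_smul_univ (fun _ => (n : k)) v, φ.map_smul_univ (fun _ => ((1 : ℤ) : k)) v]
    rw [Finset.prod_const, Finset.prod_const, Finset.card_univ, Fintype.card_fin]
    push_cast
    simp) z hz
  rw [Fin.sum_univ_two] at h
  simp only [Matrix.cons_val_zero, Matrix.cons_val_one, one_smul, neg_smul] at h
  have h1 : (scal n 0 : AMap k K N N).map = fun x => n • x := by
    ext1 x; rw [scal_map, add_zero]
  have h2 : (scal 1 0 : AMap k K N N).map = id := by
    ext1 x; rw [scal_map, one_smul, add_zero]; rfl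
  rw [h1, h2, Finsupp.mapDomain_id, ← sub_eq_add_neg] at h
  exact h

theorem isBBJ_filJ {g : J → ℕ} (hg : ∀ j, IsGenus k (K j) (g j)) [Fintype J] [∀ j, Fintype (N j)] :
    IsBBJ k K N (filJ k K N) where
  top := filJ_zero
  rat := ratTriv_le_filJ
  anti := filJ_succ_le
  fin := ⟨_, (filJ_large hg (Nat.lt_succ_self _)).le⟩
  trans := fun _ _ hz a => filJ_trans hg hz a
  mul := fun _ _ hz n => filJ_mul hg hz n

theorem IsBBJ.eq_filJ {g : J → ℕ} (hg : ∀ j, IsGenus k (K j) (g j)) [Fintype J]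
    [∀ j, Fintype (N j)] {G : ℕ → Submodule ℚ ((∀ j, N j → JPt k (K j)) →₀ ℚ)}
    (h : IsBBJ k K N G) (i : ℕ) : G i = filJ k K N i := by
  apply le_antisymm _ (h.ge i)
  refine eigen (Finsupp.lmapDomain ℚ ℚ (fun x => (2 : ℤ) • x)) G (filJ k K N)
    (ratTriv (prodJ (k := k) K N)) ratTriv_le_filJ ?_ ?_ ?_ ?_ filJ_zero filJ_succ_le i
  · intro z hz
    have h1 : (fun x => (2 : ℤ) • x) = (scal 2 0 : AMap k K N N).map := by
      ext1 x; rw [scal_map, add_zero]
    rw [Finsupp.lmapDomain_apply, h1]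
    exact mapDomain_mem (scal 2 0 : AMap k K N N).isMap hz
  · intro i z hz
    have := h.mul i z hz 2
    simpa using this
  · obtain ⟨n, hn⟩ := h.fin
    exact ⟨n, fun n' hn' => (h.anti' hn').trans hn⟩
  · intro i z hz
    have := filJ_mul hg hz 2
    simpa using this

/-! ### Natural decompositions -/

/-- the action of a natural correspondence on zero-cycles -/
def act [∀ j, Fintype (N j)] (Z : AMap k K N M →₀ ℚ) : ((∀ j, N j → JPt k (K j)) →₀ ℚ) →ₗ[ℚ]
    ((∀ j, M j → JPt k (K j)) →₀ ℚ) :=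
  Z.sum fun F c => c • Finsupp.lmapDomain ℚ ℚ F.map

lemma act_apply [∀ j, Fintype (N j)] (Z : AMap k K N M →₀ ℚ)
    (z : (∀ j, N j → JPt k (K j)) →₀ ℚ) : act Z z = Z.sum fun F c => c • z.mapDomain F.map := by
  unfold act Finsupp.sum
  simp only [LinearMap.sum_apply, LinearMap.smul_apply, Finsupp.lmapDomain_apply]

lemma act_rat [∀ j, Fintype (N j)] (Z : AMap k K N M →₀ ℚ)
    {z : (∀ j, N j → JPt k (K j)) →₀ ℚ} (hz : z ∈ ratTriv (prodJ (k := k) K N)) :
    act Z z ∈ ratTriv (prodJ (k := k) K M) := by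
  rw [act_apply]
  unfold Finsupp.sum
  apply Submodule.sum_mem
  intro F _
  exact Submodule.smul_mem _ _ (mapDomain_mem F.isMap hz)

/-- the value on tangent vectors of the pull-back of the `i`-form `φ` -/
def pull (g : J → ℕ) [∀ j, Fintype (N j)] (Z : AMap k K N M →₀ ℚ) {i : ℕ}
    (φ : TS k g M [⋀^Fin i]→ₗ[k] k) (v : Fin i → TS k g N) : k :=
  Z.sum fun F c => (c : k) * φ (fun l => linT F.A (v l))

theorem mainJ' {g : J → ℕ} (hg : ∀ j, IsGenus k (K j) (g j)) [Finite J] [∀ j, Fintype (N j)]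
    [∀ j, Fintype (M j)] {i : ℕ} (Z : AMap k K N M →₀ ℚ)
    (h : ∀ (φ : TS k g M [⋀^Fin i]→ₗ[k] k) (v : Fin i → TS k g N), pull g Z φ v = 0)
    (z : (∀ j, N j → JPt k (K j)) →₀ ℚ) (hz : z ∈ filJ k K N i) :
    act Z z ∈ filJ k K M (i + 1) := by
  classical
  have h1 := mainJ hg (R := Z.support) (fun r => Z r) (fun r => r.1) (by
    intro φ v
    rw [← h φ v]
    unfold pull Finsupp.sum
    exact Finset.sum_coe_sort Z.support
      (fun F => ((Z F : ℚ) : k) * φ (fun l => linT F.A (v l)))) z hz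
  rw [act_apply]
  unfold Finsupp.sum
  rw [← Finset.sum_coe_sort Z.support (fun F => Z F • z.mapDomain F.map)]
  exact h1

end

end Pool.Agent.Q145.JA
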