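import Pool.Agent.Q145.JA.Jac

/-!
# Bloch's theorem for Jacobians and their products
-/

set_option autoImplicit false
set_option linter.unusedSectionVars false

namespace Pool.Agent.Q145.JA

open Finset FF Pool.Agent.Q70.CH

noncomputable section

/-- the function on points attached to a functional on cycles -/
def fnL {Y W : Type} [AddCommGroup W] [Module ℚ W] (L : (Y →₀ ℚ) →ₗ[ℚ] W) (y : Y) : W :=
  L (Finsupp.single y 1)

section jac

variable {k : Type} [Field k] [CharZero k] [IsAlgClosed k] {K : Type} [Field K] [Algebra k K]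
  [IsFF k K] {W : Type} [AddCommGroup W] [Module ℚ W]

lemma bloch_ab {g : ℕ} (hg : IsGenus k K g) (L : (JPt k K →₀ ℚ) →ₗ[ℚ] W)
    (hL : ∀ z ∈ ratTriv (jac k K), L z = 0) (o : Place k K) (y : Fin (g + 1) → Place k K)
    (x : JPt k K) : DS (fnL L) univ (fun l => ab (y l) o) x = 0 := by
  classical
  let F : Finset (Fin (g + 1)) → (Fin (g + 1) → Place k K) → JPt k K :=
    fun B y => x + ∑ l ∈ B, ab (y l) o
  have hF : ∀ B, IsMap ((curve (k := k) K).pow (Fin (g + 1))) (jac k K) (F B) := by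
    intro B B' _ _ _ s hs
    refine jac_add B' (jac_const B' x o) ?_
    exact jac_sum B' B (s := fun l Q => ab (s Q l) o) (fun l _ => jac_ab B' (hs l) (curve_const _ _ _))
  let Λ : ((Fin (g + 1) → Place k K) →₀ ℚ) →ₗ[ℚ] W :=
    ∑ B ∈ (univ : Finset (Fin (g + 1))).powerset, ((-1 : ℚ) ^ B.card) •
      L.comp (Finsupp.lmapDomain ℚ ℚ (F B))
  have hΛ : ∀ y, Λ (Finsupp.single y 1) = DS (fnL L) univ (fun l => ab (y l) o) x := by
    intro y
    simp only [Λ]
    rw [LinearMap.sum_apply]
    unfold DS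
    apply Finset.sum_congr rfl
    intro B _
    rw [LinearMap.smul_apply, LinearMap.comp_apply, Finsupp.lmapDomain_apply,
      Finsupp.mapDomain_single]
    rfl
  have hΛ0 : ∀ z : (Fin (g + 1) → Place k K) →₀ ℚ,
      z ∈ ratTriv ((curve (k := k) K).pow (Fin (g + 1))) → Λ z = 0 := by
    intro z hz
    simp only [Λ]
    rw [LinearMap.sum_apply]
    apply Finset.sum_eq_zero
    intro B _
    have h9 : L (Finsupp.mapDomain (F B) z) = 0 := hL _ (mapDomain_mem (hF B) hz)
    rw [LinearMap.smul_apply, LinearMap.comp_apply, Finsupp.lmapDomain_apply, h9, smul_zero]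
  have hsym : ∀ y, Λ (symc y) = (Fintype.card (Equiv.Perm (Fin (g + 1))) : ℚ) •
      DS (fnL L) univ (fun l => ab (y l) o) x := by
    intro y
    unfold symc
    rw [map_sum]
    have : ∀ π : Equiv.Perm (Fin (g + 1)), Λ (Finsupp.single (fun i => y (π i)) 1) =
        DS (fnL L) univ (fun l => ab (y l) o) x := by
      intro π
      rw [hΛ]
      exact DS_perm (fnL L) π (fun l => ab (y l) o) x
    simp only [this]
    rw [Finset.sum_const, Finset.card_univ, Nat.cast_smul_eq_nsmul]
  obtain ⟨z, hz0, hz⟩ := exists_move hg (ι := Fin (g + 1)) (by rw [Fintype.card_fin]; omega) y 0 o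
  have h1 := hΛ0 _ hz
  rw [map_sub, sub_eq_zero, hsym z, hsym y] at h1
  have h2 : DS (fnL L) univ (fun l => ab (z l) o) x = 0 := by
    rw [DS_slot (fnL L) (Finset.mem_univ (0 : Fin (g + 1))), hz0, ab_self, add_zero, sub_self]
  rw [h2, smul_zero] at h1
  have hcard : (Fintype.card (Equiv.Perm (Fin (g + 1))) : ℚ) ≠ 0 := by
    have : 0 < Fintype.card (Equiv.Perm (Fin (g + 1))) := Fintype.card_pos
    positivity
  exact (smul_eq_zero.1 h1.symm).resolve_left hcard

/-- **Bloch's theorem** for the Jacobian. -/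
theorem bloch {g : ℕ} (hg : IsGenus k K g) (L : (JPt k K →₀ ℚ) →ₗ[ℚ] W)
    (hL : ∀ z ∈ ratTriv (jac k K), L z = 0) {ι : Type} [DecidableEq ι] (S : Finset ι)
    (hS : S.card = g + 1) (a : ι → JPt k K) (x : JPt k K) : DS (fnL L) S a x = 0 := by
  classical
  obtain ⟨o, -⟩ := exists_place (k := k) (K := K)
  let e : Fin (g + 1) ↪ ι := ((Finset.equivFinOfCardEq hS).symm.toEmbedding).trans
    (Function.Embedding.subtype _)
  have he : univ.map e = S := by
    ext m
    simp only [Finset.mem_map, Finset.mem_univ, true_and]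
    constructor
    · rintro ⟨l, rfl⟩
      exact ((Finset.equivFinOfCardEq hS).symm l).2
    · intro hm
      exact ⟨Finset.equivFinOfCardEq hS ⟨m, hm⟩, by simp [e]⟩
  rw [← he, DS_map]
  refine DS_gen (fnL L) _ (closure_ab o) ?_ _ x
  intro a ha x
  choose y hy using ha
  have : a = fun l => ab (y l) o := by ext1 l; exact hy l
  rw [this]
  exact bloch_ab hg L hL o y x

end jac

variable {k : Type} [Field k] [CharZero k] {J : Type} (K : J → Type) [∀ j, Field (K j)]
  [∀ j, Algebra k (K j)] [∀ j, IsFF k (K j)]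

/-- The product of the powers `J(C_j) ^ (N j)` of the Jacobians. -/
@[reducible] def prodJ (N : J → Type) : Sp k where
  pts := ∀ j, N j → JPt k (K j)
  mor B _ _ := {s | ∀ j q, (fun Q => s Q j q) ∈ (jac k (K j)).mor B}

variable {K} {N : J → Type}

open Classical in
/-- the inclusion of a factor -/
def emj (q : Σ j, N j) (j : J) : JPt k (K j) →+ (∀ j, N j → JPt k (K j)) where
  toFun α := fun j' m => if h : j = j' then (if q = ⟨j', m⟩ then h ▸ α else 0) else 0
  map_zero' := by
    ext1 j'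
    ext1 m
    by_cases h : j = j'
    · subst h
      simp
    · simp [h]
  map_add' α β := by
    ext1 j'
    ext1 m
    by_cases h : j = j'
    · subst h
      by_cases hq : q = ⟨j, m⟩
      · simp [hq]
      · simp [hq]
    · simp [h]

lemma emj_same (q : Σ j, N j) (α : JPt k (K q.1)) : emj q q.1 α q.1 q.2 = α := by
  classical
  change (if h : q.1 = q.1 then (if q = ⟨q.1, q.2⟩ then h ▸ α else 0) else 0) = α
  rw [dif_pos rfl, if_pos rfl]

lemma emj_ne (q : Σ j, N j) (j : J) (α : JPt k (K j)) (j' : J) (m : N j')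
    (h : q ≠ ⟨j', m⟩) : emj q j α j' m = 0 := by
  classical
  change (if h : j = j' then (if q = ⟨j', m⟩ then h ▸ α else 0) else 0) = 0
  by_cases h1 : j = j'
  · rw [dif_pos h1, if_neg h]
  · rw [dif_neg h1]

lemma emj_type (q : Σ j, N j) (j : J) (α : JPt k (K j)) (hj : j ≠ q.1) : emj q j α = 0 := by
  classical
  ext1 j'
  ext1 m
  by_cases h : q = ⟨j', m⟩
  · subst h
    change (if h : j = j' then _ else 0) = 0
    rw [dif_neg hj]
  · exact emj_ne q j α j' m h

/-- adding an affine image of the Jacobian is a map -/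
lemma affine_isMap {ι : Type} (x : ∀ j, N j → JPt k (K j)) (j : J) (A : Finset ι)
    (b : ι → Σ j, N j) [IsAlgClosed k] :
    IsMap (jac k (K j)) (prodJ K N) (fun α => x + ∑ m ∈ A, emj (b m) j α) := by
  classical
  intro B _ _ _ s hs j' q
  obtain ⟨o, -⟩ := exists_place (k := k) (K := K j')
  have h1 : (fun Q => (x + ∑ m ∈ A, emj (b m) j (s Q)) j' q) =
      fun Q => x j' q + ∑ m ∈ A, emj (b m) j (s Q) j' q := by
    ext1 Q
    rw [Pi.add_apply, Pi.add_apply, Finset.sum_apply, Finset.sum_apply]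
  rw [h1]
  refine jac_add B (jac_const B _ o) (jac_sum B A (fun m _ => ?_))
  by_cases h : j = j'
  · subst h
    by_cases hq : b m = ⟨j, q⟩
    · have : (fun Q => emj (b m) j (s Q) j q) = s := by
        ext1 Q
        rw [hq]
        exact emj_same ⟨j, q⟩ (s Q)
      rw [this]
      exact hs
    · have : (fun Q => emj (b m) j (s Q) j q) = fun _ => 0 := by
        ext1 Q
        exact emj_ne _ _ _ _ _ hq
      rw [this]
      exact jac_zero B
  · have : (fun Q => emj (b m) j (s Q) j' q) = fun _ => 0 := by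
      ext1 Q
      change (if h : j = j' then _ else 0) = 0
      rw [dif_neg h]
    rw [this]
    exact jac_zero B

variable [IsAlgClosed k] {W : Type} [AddCommGroup W] [Module ℚ W]

/-- Bloch's theorem on the product, for a subset of the arguments. -/
theorem bloch_prod {g : J → ℕ} (hg : ∀ j, IsGenus k (K j) (g j))
    (L : ((∀ j, N j → JPt k (K j)) →₀ ℚ) →ₗ[ℚ] W) (hL : ∀ z ∈ ratTriv (prodJ (k := k) K N), L z = 0)
    {ι : Type} [DecidableEq ι] (S : Finset ι) (j : J) (hS : S.card = g j + 1) {ι' : Type}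
    (A : Finset ι') (b : ι' → Σ j, N j) (β : ι → JPt k (K j)) (a : ι → ∀ j, N j → JPt k (K j))
    (ha : ∀ l ∈ S, a l = ∑ m ∈ A, emj (b m) j (β l)) (x : ∀ j, N j → JPt k (K j)) :
    DS (fnL L) S a x = 0 := by
  classical
  let F : JPt k (K j) → (∀ j, N j → JPt k (K j)) := fun α => x + ∑ m ∈ A, emj (b m) j α
  have h1 := bloch (hg j) (L.comp (Finsupp.lmapDomain ℚ ℚ F)) (by
    intro z hz
    exact hL _ (mapDomain_mem (affine_isMap x j A b) hz)) S hS β 0
  rw [← h1, DS_congr (fnL L) ha]
  unfold DS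
  apply Finset.sum_congr rfl
  intro B _
  congr 1
  unfold fnL
  rw [LinearMap.comp_apply, Finsupp.lmapDomain_apply, Finsupp.mapDomain_single]
  congr 2
  simp only [F]
  rw [zero_add, Finset.sum_comm]
  congr 1
  apply Finset.sum_congr rfl
  intro m _
  rw [map_sum]

/-- the same, with more arguments -/
theorem bloch_univ {g : J → ℕ} (hg : ∀ j, IsGenus k (K j) (g j))
    (L : ((∀ j, N j → JPt k (K j)) →₀ ℚ) →ₗ[ℚ] W) (hL : ∀ z ∈ ratTriv (prodJ (k := k) K N), L z = 0)
    {ι : Type} [DecidableEq ι] [Fintype ι] (S : Finset ι) (j : J) (hS : S.card = g j + 1)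
    {ι' : Type} (A : Finset ι') (b : ι' → Σ j, N j) (β : ι → JPt k (K j))
    (a : ι → ∀ j, N j → JPt k (K j)) (ha : ∀ l ∈ S, a l = ∑ m ∈ A, emj (b m) j (β l))
    (x : ∀ j, N j → JPt k (K j)) : DS (fnL L) univ a x = 0 := by
  have h1 : (univ : Finset ι) = S ∪ Sᶜ := (Finset.union_compl S).symm
  rw [h1, DS_union _ _ _ disjoint_compl_right]
  have h2 : (fun x => DS (fnL L) S a x) = fun _ => 0 := by
    ext1 x
    exact bloch_prod hg L hL S j hS A b β a ha x
  rw [h2]
  unfold DS
  simp

end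

end Pool.Agent.Q145.JA
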