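import Pool.Agent.Q145.JA.BB

/-!
# Natural Chow-Künneth decompositions of products of Jacobians
-/

set_option autoImplicit false
set_option linter.unusedSectionVars false

namespace Pool.Agent.Q145.JA

open Finset FF Pool.Agent.Q70.CH Pool.Agent.Q145.NC

noncomputable section

variable {k : Type} [Field k] [CharZero k] {J : Type} {K : J → Type} [∀ j, Field (K j)]
  [∀ j, Algebra k (K j)] [∀ j, IsFF k (K j)] {N M : J → Type} [IsAlgClosed k]
  [∀ j, Fintype (N j)]

lemma act_zero : act (0 : AMap k K N M →₀ ℚ) = 0 := by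
  unfold act; simp

lemma act_add (Z Z' : AMap k K N M →₀ ℚ) : act (Z + Z') = act Z + act Z' := by
  classical
  unfold act
  rw [Finsupp.sum_add_index']
  · intro F; rw [zero_smul]
  · intro F c c'; rw [add_smul]

lemma act_neg (Z : AMap k K N M →₀ ℚ) : act (-Z) = -act Z := by
  have h := act_add Z (-Z)
  rw [add_neg_cancel, act_zero] at h
  exact (neg_eq_of_add_eq_zero_right h.symm).symm

lemma act_sum {ι : Type} (s : Finset ι) (Z : ι → AMap k K N M →₀ ℚ) :
    act (∑ l ∈ s, Z l) = ∑ l ∈ s, act (Z l) := by
  classical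
  induction s using Finset.induction_on with
  | empty => rw [Finset.sum_empty, Finset.sum_empty, act_zero]
  | insert a s ha ih => rw [Finset.sum_insert ha, Finset.sum_insert ha, act_add, ih]

lemma act_one : act (Finsupp.single (scal 1 0) 1 : AMap k K N N →₀ ℚ) = LinearMap.id := by
  apply LinearMap.ext
  intro z
  rw [act_apply, Finsupp.sum_single_index (by rw [zero_smul]), one_smul]
  have h2 : (scal 1 0 : AMap k K N N).map = id := by
    ext1 x; rw [scal_map, one_smul, add_zero]; rfl
  rw [h2, Finsupp.mapDomain_id]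
  rfl

variable {g : J → ℕ}

lemma pull_zero {i : ℕ} (φ : TS k g M [⋀^Fin i]→ₗ[k] k) (v : Fin i → TS k g N) :
    pull g (0 : AMap k K N M →₀ ℚ) φ v = 0 := by
  unfold pull; simp

lemma pull_add (Z Z' : AMap k K N M →₀ ℚ) {i : ℕ} (φ : TS k g M [⋀^Fin i]→ₗ[k] k)
    (v : Fin i → TS k g N) : pull g (Z + Z') φ v = pull g Z φ v + pull g Z' φ v := by
  classical
  unfold pull
  rw [Finsupp.sum_add_index']
  · intro F; rw [Rat.cast_zero, zero_mul]
  · intro F c c'; rw [Rat.cast_add, add_mul]

lemma pull_neg (Z : AMap k K N M →₀ ℚ) {i : ℕ} (φ : TS k g M [⋀^Fin i]→ₗ[k] k)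
    (v : Fin i → TS k g N) : pull g (-Z) φ v = -pull g Z φ v := by
  have h := pull_add Z (-Z) φ v
  rw [add_neg_cancel, pull_zero] at h
  exact (neg_eq_of_add_eq_zero_right h.symm).symm

lemma pull_sum {ι : Type} (s : Finset ι) (Z : ι → AMap k K N M →₀ ℚ) {i : ℕ}
    (φ : TS k g M [⋀^Fin i]→ₗ[k] k) (v : Fin i → TS k g N) :
    pull g (∑ l ∈ s, Z l) φ v = ∑ l ∈ s, pull g (Z l) φ v := by
  classical
  induction s using Finset.induction_on with
  | empty => rw [Finset.sum_empty, Finset.sum_empty, pull_zero]
  | insert a s ha ih => rw [Finset.sum_insert ha, Finset.sum_insert ha, pull_add, ih]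

lemma pull_one {i : ℕ} (φ : TS k g N [⋀^Fin i]→ₗ[k] k) (v : Fin i → TS k g N) :
    pull g (Finsupp.single (scal 1 0) 1 : AMap k K N N →₀ ℚ) φ v = φ v := by
  unfold pull
  rw [Finsupp.sum_single_index (by rw [Rat.cast_zero, zero_mul]), Rat.cast_one, one_mul]
  congr 1
  ext1 l
  rw [scal_lin, Int.cast_one, one_smul]

/-- Two maps from the zero-cycles on `X` to those on `Y` agree modulo rational equivalence. -/
def SameRat (Z Z' : ((∀ j, N j → JPt k (K j)) →₀ ℚ) →ₗ[ℚ] ((∀ j, M j → JPt k (K j)) →₀ ℚ)) : Prop :=
  ∀ z, Z z - Z' z ∈ ratTriv (prodJ (k := k) K M)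

/-- The correspondence `Z` acts as the scalar `c` on the holomorphic `i`-forms of `X`. -/
def ActsAs (g : J → ℕ) (Z : AMap k K N N →₀ ℚ) (i : ℕ) (c : k) : Prop :=
  ∀ (φ : TS k g N [⋀^Fin i]→ₗ[k] k) (v : Fin i → TS k g N), pull g Z φ v = c * φ v

/-- A decomposition of the diagonal of `X = ∏ J(C_j) ^ (N j)`, `dim X = d`, into natural
correspondences `π_0, ..., π_(2 d)` which act on the zero-cycles modulo rational equivalence as
orthogonal idempotents with sum `1` and on the holomorphic `i`-forms as a Chow-Künneth decomposition: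
`(π_l)^*` is the identity on `H^{i,0}(X)` if `l = 2 d - i` and zero if not. -/
structure NatDec (g : J → ℕ) (N : J → Type) [∀ j, Fintype (N j)] (d : ℕ)
    (π : ℕ → (AMap k K N N →₀ ℚ)) : Prop where
  idem : ∀ l ≤ 2 * d, SameRat (act (π l) ∘ₗ act (π l)) (act (π l))
  orth : ∀ l ≤ 2 * d, ∀ m ≤ 2 * d, l ≠ m → SameRat (act (π l) ∘ₗ act (π m)) 0
  sum : SameRat (∑ l ∈ range (2 * d + 1), act (π l)) LinearMap.id
  forms : ∀ l ≤ 2 * d, ∀ i : ℕ, ActsAs g (π l) i (if l + i = 2 * d then 1 else 0)

/-- The step `F^m CH_0(X) = (π_(2 d - m) + ... + π_0)_* CH_0(X)` of the filtration given by the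
decomposition (zero-cycles are considered together with all those rationally equivalent to them). -/
def filDec (d : ℕ) (π : ℕ → (AMap k K N N →₀ ℚ)) (m : ℕ) :
    Submodule ℚ ((∀ j, N j → JPt k (K j)) →₀ ℚ) :=
  ratTriv (prodJ (k := k) K N) ⊔
    LinearMap.range (∑ l ∈ (range (2 * d + 1)).filter (fun l => l + m ≤ 2 * d), act (π l))

/-- **Independence of the decomposition**: the filtration on the zero-cycles given by a natural
decomposition is the filtration by the powers of the augmentation ideal. -/
theorem NatDec.eq_filJ [Fintype J] (hg : ∀ j, IsGenus k (K j) (g j)) {d : ℕ}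
    (hd : ∑ j, g j * Fintype.card (N j) = d) {π : ℕ → (AMap k K N N →₀ ℚ)}
    (h : NatDec g N d π) (m : ℕ) : filDec d π m = filJ k K N m := by
  classical
  set s := (range (2 * d + 1)).filter (fun l => l + m ≤ 2 * d) with hs
  have hsl : ∀ l ∈ s, l ≤ 2 * d ∧ l + m ≤ 2 * d := by
    intro l hl
    rw [hs, Finset.mem_filter, Finset.mem_range] at hl
    omega
  set P := ∑ l ∈ s, π l with hP
  have hPa : act P = ∑ l ∈ s, act (π l) := act_sum _ _
  -- `P` is idempotent modulo rational equivalence
  have hPP : ∀ z, act P (act P z) - act P z ∈ ratTriv (prodJ (k := k) K N) := by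
    intro z
    have h1 : act P (act P z) - act P z =
        ∑ l ∈ s, ((act (π l) (act (π l) z) - act (π l) z) +
          ∑ m ∈ s.erase l, act (π l) (act (π m) z)) := by
      have e2 : ∀ y, act P y = ∑ l ∈ s, act (π l) y := by
        intro y
        rw [hPa, LinearMap.sum_apply]
      have e1 : act P (act P z) = ∑ l ∈ s, ∑ m ∈ s, act (π l) (act (π m) z) := by
        rw [e2]
        apply Finset.sum_congr rfl
        intro l _
        rw [e2, map_sum]
      rw [e1, e2, ← Finset.sum_sub_distrib]
      apply Finset.sum_congr rfl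
      intro l hl
      rw [← Finset.add_sum_erase s _ hl]
      abel
    rw [h1]
    apply Submodule.sum_mem
    intro l hl
    apply Submodule.add_mem
    · exact h.idem l (hsl l hl).1 z
    · apply Submodule.sum_mem
      intro m hm
      have h2 := h.orth l (hsl l hl).1 m (hsl m (Finset.mem_of_mem_erase hm)).1
        (Finset.ne_of_mem_erase hm).symm z
      rw [LinearMap.zero_apply, sub_zero] at h2
      exact h2
  have hpull : ∀ (i : ℕ) (φ : TS k g N [⋀^Fin i]→ₗ[k] k) (v : Fin i → TS k g N),
      pull g P φ v = if m ≤ i ∧ i ≤ 2 * d then φ v else 0 := by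
    intro i φ v
    rw [hP, pull_sum]
    have hf : ∀ l ∈ s, pull g (π l) φ v = if l + i = 2 * d then φ v else 0 := by
      intro l hl
      rw [h.forms l (hsl l hl).1 i φ v]
      split_ifs
      · rw [one_mul]
      · rw [zero_mul]
    rw [Finset.sum_congr rfl hf]
    split_ifs with hi
    · rw [Finset.sum_eq_single (2 * d - i)]
      · rw [if_pos (by omega)]
      · intro l _ hl
        rw [if_neg (by omega)]
      · intro hc
        exfalso
        apply hc
        rw [hs, Finset.mem_filter, Finset.mem_range]
        omega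
    · apply Finset.sum_eq_zero
      intro l hl
      have := hsl l hl
      rw [if_neg (by omega)]
  have hlarge : filJ k K N (2 * d + 1) ≤ ratTriv (prodJ (k := k) K N) :=
    (filJ_large hg (i := 2 * d + 1) (by omega)).le
  apply le_antisymm
  · unfold filDec
    refine sup_le (ratTriv_le_filJ m) ?_
    rintro _ ⟨z, rfl⟩
    rw [← hs, ← hPa]
    have key : ∀ i ≤ m, act P z ∈ filJ k K N i := by
      intro i
      induction i with
      | zero => intro _; rw [filJ_zero]; trivial
      | succ i ih =>
        intro hi
        have h1 : act P (act P z) ∈ filJ k K N (i + 1) :=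
          mainJ' hg P (fun φ v => by rw [hpull, if_neg (by omega)]) _ (ih (by omega))
        have h2 := Submodule.sub_mem _ h1 (ratTriv_le_filJ (i + 1) (hPP z))
        rw [sub_sub_cancel] at h2
        exact h2
    exact key m le_rfl
  · intro z hz
    set Q : AMap k K N N →₀ ℚ := Finsupp.single (scal 1 0) 1 + -P with hQ
    have hQa : ∀ z, act Q z = z - act P z := by
      intro z
      rw [hQ, act_add, act_neg, act_one, LinearMap.add_apply, LinearMap.neg_apply,
        LinearMap.id_apply, ← sub_eq_add_neg]
    have hQQ : ∀ z, act Q (act Q z) - act Q z ∈ ratTriv (prodJ (k := k) K N) := by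
      intro z
      have h1 : act Q (act Q z) - act Q z = act P (act P z) - act P z := by
        rw [hQa (act Q z), hQa z, map_sub]
        abel
      rw [h1]
      exact hPP z
    have key : ∀ n, m + n ≤ 2 * d + 1 → act Q z ∈ filJ k K N (m + n) := by
      intro n
      induction n with
      | zero =>
        intro _
        rw [hQa]
        apply Submodule.sub_mem _ hz
        -- `P` preserves `F^m`
        have h1 : act P z ∈ filJ k K N m := by
          have key2 : ∀ i ≤ m, act P z ∈ filJ k K N i := by
            intro i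
            induction i with
            | zero => intro _; rw [filJ_zero]; trivial
            | succ i ih =>
              intro hi
              have h1 : act P (act P z) ∈ filJ k K N (i + 1) :=
                mainJ' hg P (fun φ v => by rw [hpull, if_neg (by omega)]) _ (ih (by omega))
              have h2 := Submodule.sub_mem _ h1 (ratTriv_le_filJ (i + 1) (hPP z))
              rw [sub_sub_cancel] at h2
              exact h2
          exact key2 m le_rfl
        exact h1
      | succ n ih =>
        intro hn
        have h1 : act Q (act Q z) ∈ filJ k K N (m + n + 1) := by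
          refine mainJ' hg Q (fun φ v => ?_) _ (ih (by omega))
          rw [hQ, pull_add, pull_neg, pull_one, hpull, if_pos (by omega), add_neg_cancel]
        have h2 := Submodule.sub_mem _ h1 (ratTriv_le_filJ (m + n + 1) (hQQ z))
        rw [sub_sub_cancel] at h2
        exact h2
    have hfin : act Q z ∈ ratTriv (prodJ (k := k) K N) := by
      by_cases hm : m ≤ 2 * d + 1
      · have h1 := key (2 * d + 1 - m) (by omega)
        rw [Nat.add_sub_cancel' hm] at h1
        exact hlarge h1
      · have h1 : z ∈ ratTriv (prodJ (k := k) K N) := hlarge (filJ_anti (by omega) hz)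
        exact act_rat Q h1
    unfold filDec
    rw [← hs, ← hPa]
    have h3 : z = act Q z + act P z := by rw [hQa]; abel
    rw [h3]
    exact Submodule.add_mem_sup hfin ⟨z, rfl⟩

/-- cycles rationally equivalent to zero have degree zero -/
lemma ratTriv_deg (X : Sp k) {z : X.pts →₀ ℚ} (hz : z ∈ ratTriv X) : (z.sum fun _ c => c) = 0 := by
  have hlin : ∀ {Y : Type} (z : Y →₀ ℚ), (z.sum fun _ c => c) =
      Finsupp.linearCombination ℚ (fun _ => (1 : ℚ)) z := by
    intro Y z
    rw [Finsupp.linearCombination_apply]
    simp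
  rw [hlin]
  have h : ratTriv X ≤ LinearMap.ker (Finsupp.linearCombination ℚ (fun _ : X.pts => (1 : ℚ))) := by
    unfold ratTriv
    rw [Submodule.span_le]
    rintro _ ⟨B, _, _, _, s, hs, t, ht, rfl⟩
    rw [SetLike.mem_coe, LinearMap.mem_ker, Finsupp.linearCombination_mapDomain]
    change Finsupp.linearCombination ℚ (fun _ : Place k B => (1 : ℚ)) (qdiv (k := k) t) = 0
    rw [← hlin]
    have h1 := ddeg_divisor (k := k) (K := B) t
    rw [ddeg_eq_sum] at h1
    unfold qdiv
    rw [Finsupp.sum_mapRange_index (by intro; rfl)]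
    have h2 := congrArg (fun n : ℤ => (n : ℚ)) h1
    unfold Finsupp.sum at h2 ⊢
    push_cast at h2
    exact h2
  exact h hz

lemma filJ_one_iff (z : (∀ j, N j → JPt k (K j)) →₀ ℚ) :
    z ∈ filJ k K N 1 ↔ (z.sum fun _ c => c) = 0 := by
  classical
  constructor
  · intro hz
    have hlin : ∀ (z : (∀ j, N j → JPt k (K j)) →₀ ℚ), (z.sum fun _ c => c) =
        Finsupp.linearCombination ℚ (fun _ => (1 : ℚ)) z := by
      intro z
      rw [Finsupp.linearCombination_apply]
      simp
    rw [hlin]
    have h : filJ k K N 1 ≤ LinearMap.ker (Finsupp.linearCombination ℚ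
        (fun _ : (∀ j, N j → JPt k (K j)) => (1 : ℚ))) := by
      unfold filJ
      refine sup_le ?_ ?_
      · intro z hz
        rw [LinearMap.mem_ker, ← hlin]
        exact ratTriv_deg (prodJ (k := k) K N) hz
      · rw [Submodule.span_le]
        rintro _ ⟨a, x, rfl⟩
        rw [SetLike.mem_coe, LinearMap.mem_ker, pont_succ, pont_zero, pont_zero, map_sub,
          Finsupp.linearCombination_single, Finsupp.linearCombination_single, sub_self]
    exact h hz
  · exact mem_filJ_one z

end

end Pool.Agent.Q145.JA
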