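import Pool.Agent.Q145.JA.Pol

/-!
# The combinatorial core for abelian varieties
-/

set_option autoImplicit false
set_option linter.unusedSectionVars false

namespace Pool.Agent.Q145.JA

open Finset Equiv Pool.Agent.Q70.CH Pool.Agent.Q145.NC

section core

variable {J : Type} {P : J → Type} {ι κ : Type} [Fintype κ] [DecidableEq κ]
  {Y W : Type} [AddCommGroup Y] [AddCommGroup W] [Module ℚ W] {i : ℕ}

/-- **The combinatorial core** for abelian varieties. -/
theorem coreA {R : Type} [Fintype R] (ψ : MultilinearMap ℤ (fun _ : Fin i => Y) W)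
    (hsym : ∀ (a : Fin i → Y) (σ : Perm (Fin i)), ψ (fun l => a (σ l)) = ψ a)
    (E : κ → (Σ j, P j) → Y) (tX : ι → J) (tY : κ → J) (g : J → ℕ)
    (c : R → ℚ) (A : R → κ → ι → ℤ) (hA : ∀ r q p, A r q p ≠ 0 → tY q = tX p)
    (hBl : ∀ (S : Finset (Fin i)) (j : J), S.card = g j + 1 → ∀ (b : Fin i → κ),
      (∀ l ∈ S, tY (b l) = j) → ∀ (β : Fin i → Σ j, P j), (∀ l ∈ S, (β l).1 = j) →
      ∀ A ⊆ S, ψ (fun l => if l ∈ S then ∑ m ∈ A, E (b m) (β l) else E (b l) (β l)) = 0)
    (p : Fin i → ι) (α : Fin i → Σ j, P j) (hα : ∀ l, (α l).1 = tX (p l))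
    (hH : ∀ (b : Fin i → κ) (σ : Perm (Fin i)), (∀ l, tY (b l) = tX (p (σ l))) →
      ∀ c' d : Fin i → ℕ, (∀ l, c' l < g (tY (b l))) → (∀ l, d l < g (tY (b l))) →
      (∑ ρ : Perm (Fin i), if (fun l => d (ρ l)) = c' then
        ((Perm.sign ρ : ℤ) : ℚ) * ∑ r, c r * ∏ l, (A r (b l) (p (σ (ρ l))) : ℚ) else 0) = 0) :
    ∑ r, c r • ψ (fun l => ∑ q, A r q (p l) • E q (α l)) = 0 := by
  classical
  let Ψ : (Fin i → κ) → (Fin i → Σ j, P j) → W := fun b β => ψ (fun l => E (b l) (β l))
  let w : (Fin i → κ) → ℚ := fun b => ∑ r, c r * ∏ l, (A r (b l) (p l) : ℚ)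
  have h1 : ∑ r, c r • ψ (fun l => ∑ q, A r q (p l) • E q (α l)) = ∑ b, w b • Ψ b α := by
    have h2 : ∀ r, ψ (fun l => ∑ q, A r q (p l) • E q (α l)) =
        ∑ b : Fin i → κ, (∏ l, (A r (b l) (p l) : ℚ)) • Ψ b α := by
      intro r
      rw [ψ.map_sum]
      apply Finset.sum_congr rfl
      intro b _
      rw [ψ.map_smul_univ]
      simp only [Ψ]
      rw [← Int.cast_smul_eq_zsmul ℚ]
      push_cast
      rfl
    simp only [h2, w, Finset.smul_sum, Finset.sum_smul, smul_smul]
    rw [Finset.sum_comm]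
  rw [h1]
  -- average over the permutations
  have h3 : ∀ σ : Perm (Fin i), ∑ b, w b • Ψ b α =
      ∑ b : Fin i → κ, (∑ r, c r * ∏ l, (A r (b l) (p (σ l)) : ℚ)) • Ψ b (fun l => α (σ l)) := by
    intro σ
    refine Fintype.sum_equiv (Equiv.arrowCongr σ.symm (Equiv.refl κ)) _ _ ?_
    intro b
    have hb : (Equiv.arrowCongr σ.symm (Equiv.refl κ)) b = fun l => b (σ l) := by
      ext l
      simp [Equiv.arrowCongr]
    rw [hb]
    have h4 : Ψ (fun l => b (σ l)) (fun l => α (σ l)) = Ψ b α :=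
      hsym (fun l => E (b l) (α l)) σ
    rw [h4]
    congr 1
    simp only [w]
    apply Finset.sum_congr rfl
    intro r _
    congr 1
    exact (Equiv.prod_comp σ (fun l => (A r (b l) (p l) : ℚ))).symm
  have h5 : (Fintype.card (Perm (Fin i)) : ℚ) • ∑ b, w b • Ψ b α = 0 := by
    have h6 : (Fintype.card (Perm (Fin i)) : ℚ) • ∑ b, w b • Ψ b α =
        ∑ b : Fin i → κ, ∑ σ : Perm (Fin i),
          (∑ r, c r * ∏ l, (A r (b l) (p (σ l)) : ℚ)) • Ψ b (fun l => α (σ l)) := by
      rw [Finset.sum_comm]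
      rw [← Finset.sum_congr rfl (fun σ _ => h3 σ), Finset.sum_const, Finset.card_univ,
        Nat.cast_smul_eq_nsmul]
    rw [h6]
    apply Finset.sum_eq_zero
    intro b _
    by_cases hex : ∃ σ₀ : Perm (Fin i), ∀ l, tY (b l) = tX (p (σ₀ l))
    · obtain ⟨σ₀, hσ₀⟩ := hex
      have h7 : ∑ σ : Perm (Fin i),
          (∑ r, c r * ∏ l, (A r (b l) (p (σ l)) : ℚ)) • Ψ b (fun l => α (σ l)) =
          ∑ ρ : Perm (Fin i), (∑ r, c r * ∏ l, (A r (b l) (p (σ₀ (ρ l))) : ℚ)) •
            Ψ b (fun l => α (σ₀ (ρ l))) := by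
        refine (Fintype.sum_equiv (Equiv.mulLeft σ₀) _ _ ?_).symm
        intro ρ
        rfl
      rw [h7]
      refine typed_sym (t := fun l => tY (b l)) (g := g)
        (fun ρ => Ψ b (fun l => α (σ₀ (ρ l)))) ?_ _ ?_ ?_
      · intro ρ hρ S j hSj hS
        -- the polarized form of Bloch's theorem
        set β : Fin i → Σ j, P j := fun l => α (σ₀ (ρ l)) with hβ
        have hβt : ∀ l, (β l).1 = tY (b l) := by
          intro l
          rw [hβ]
          simp only
          rw [hα, ← hσ₀]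
          exact hρ l
        have h8 := polarize ψ S (fun l m => E (b m) (β l)) (by
          intro A hAS
          exact hBl S j hS b hSj β (fun l hl => by rw [hβt l]; exact hSj l hl) A hAS)
        rw [← h8]
        refine Finset.sum_bij (fun π _ => π⁻¹) ?_ ?_ ?_ ?_
        · intro π hπ
          rw [mem_permsOn] at hπ ⊢
          intro l hl
          rw [Perm.inv_eq_iff_eq]
          exact (hπ l hl).symm
        · intro π _ π' _ h
          exact inv_injective h
        · intro π hπ
          refine ⟨π⁻¹, ?_, inv_inv π⟩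
          rw [mem_permsOn] at hπ ⊢
          intro l hl
          rw [Perm.inv_eq_iff_eq]
          exact (hπ l hl).symm
        · intro π _
          have h9 := hsym (fun l => E (b (π⁻¹ l)) (β l)) π
          rw [← h9]
          simp only [Ψ]
          congr 1
          ext l
          simp [hβ]
      · intro ρ hρ l
        by_contra hc
        apply hρ
        apply Finset.sum_eq_zero
        intro r _
        rw [Finset.prod_eq_zero (Finset.mem_univ l), mul_zero]
        by_contra hc2
        apply hc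
        have h8 : A r (b l) (p (σ₀ (ρ l))) ≠ 0 := by
          intro h; rw [h, Int.cast_zero] at hc2; exact hc2 rfl
        change tY (b (ρ l)) = tY (b l)
        rw [hA r _ _ h8, ← hσ₀]
      · intro c' d hc' hd
        exact hH b σ₀ hσ₀ c' d hc' hd
    · push Not at hex
      apply Finset.sum_eq_zero
      intro σ _
      obtain ⟨l, hl⟩ := hex σ
      have h8 : (∑ r, c r * ∏ l, (A r (b l) (p (σ l)) : ℚ)) = 0 := by
        apply Finset.sum_eq_zero
        intro r _
        rw [Finset.prod_eq_zero (Finset.mem_univ l), mul_zero]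
        by_contra hc2
        apply hl
        apply hA r
        intro h; rw [h, Int.cast_zero] at hc2; exact hc2 rfl
      rw [h8, zero_smul]
  have hcard : (Fintype.card (Perm (Fin i)) : ℚ) ≠ 0 := by
    have : 0 < Fintype.card (Perm (Fin i)) := Fintype.card_pos
    positivity
  exact (smul_eq_zero.1 h5).resolve_left hcard

end core

end Pool.Agent.Q145.JA
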