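import Pool.Agent.Q145.JA.Main

/-!
# The filtration on the zero-cycles of products of Jacobians
-/

set_option autoImplicit false
set_option linter.unusedSectionVars false

namespace Pool.Agent.Q145.JA

open Finset FF Pool.Agent.Q70.CH Pool.Agent.Q145.NC

noncomputable section

variable {k : Type} [Field k] [CharZero k] {J : Type} {K : J → Type} [∀ j, Field (K j)]
  [∀ j, Algebra k (K j)] [∀ j, IsFF k (K j)] {N M : J → Type}

lemma pont_succ {Y : Type} [AddCommGroup Y] {i : ℕ} (a : Fin (i + 1) → Y) (x : Y) :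
    pont a x = pont (fun l => a l.succ) x - pont (fun l => a l.succ) (x + a 0) := by
  classical
  have h : ∀ (n : ℕ) (a : Fin n → Y) (x : Y),
      pont a x = DS (fun y => Finsupp.single y (1 : ℚ)) univ a x := by
    intro n a x
    unfold pont DS
    rw [Finset.powerset_univ]
  rw [h, h, h]
  have h0 : (0 : Fin (i + 1)) ∈ (univ : Finset (Fin (i + 1))) := Finset.mem_univ _
  rw [DS_slot _ h0]
  have h1 : (univ : Finset (Fin (i + 1))).erase 0 = univ.map (Fin.succEmb i) := by
    ext l
    refine Fin.cases ?_ (fun l => ?_) l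
    · simp
    · simp
  rw [h1, DS_map, DS_map]
  rfl

lemma pont_zero {Y : Type} [AddCommGroup Y] (a : Fin 0 → Y) (x : Y) :
    pont a x = Finsupp.single x 1 := by
  unfold pont
  rw [Fintype.sum_unique]
  have : (default : Finset (Fin 0)) = ∅ := Subsingleton.elim _ _
  rw [this]
  simp

lemma ratTriv_le_filJ (i : ℕ) : ratTriv (prodJ (k := k) K N) ≤ filJ k K N i := le_sup_left

lemma filJ_zero : filJ k K N 0 = ⊤ := by
  rw [eq_top_iff]
  intro z _
  have h2 : z = z.sum fun x c => c • Finsupp.single x (1 : ℚ) := by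
    conv_lhs => rw [← Finsupp.sum_single z]
    apply Finsupp.sum_congr
    intro x _
    simp
  rw [h2]
  unfold Finsupp.sum
  apply Submodule.sum_mem
  intro x _
  apply Submodule.smul_mem
  apply Submodule.mem_sup_right
  refine Submodule.subset_span ⟨Fin.elim0, x, ?_⟩
  rw [pont_zero]

lemma filJ_succ_le (i : ℕ) : filJ k K N (i + 1) ≤ filJ k K N i := by
  unfold filJ
  refine sup_le le_sup_left ?_
  rw [Submodule.span_le]
  rintro _ ⟨a, x, rfl⟩
  rw [SetLike.mem_coe, pont_succ]
  exact Submodule.sub_mem _ (Submodule.mem_sup_right (Submodule.subset_span ⟨_, _, rfl⟩))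
    (Submodule.mem_sup_right (Submodule.subset_span ⟨_, _, rfl⟩))

lemma filJ_anti {i i' : ℕ} (h : i ≤ i') : filJ k K N i' ≤ filJ k K N i :=
  (antitone_nat_of_succ_le (fun i => filJ_succ_le (k := k) (K := K) (N := N) i)) h

lemma deg_zero {Y : Type} [AddCommGroup Y] (z : Y →₀ ℚ) (hz : (z.sum fun _ c => c) = 0) :
    z = ∑ x ∈ z.support, z x • (Finsupp.single x (1 : ℚ) - Finsupp.single 0 1) := by
  have h3 : (∑ x ∈ z.support, z x • (Finsupp.single x (1 : ℚ) - Finsupp.single 0 1)) =
      (z.sum fun x c => Finsupp.single x c) - (z.sum fun _ c => c) • Finsupp.single 0 1 := by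
    unfold Finsupp.sum
    rw [Finset.sum_smul, ← Finset.sum_sub_distrib]
    apply Finset.sum_congr rfl
    intro x _
    beta_reduce
    rw [smul_sub]
    congr 1
    rw [Finsupp.smul_single, smul_eq_mul, mul_one]
  rw [h3, hz, zero_smul, sub_zero, Finsupp.sum_single]

/-- cycles of degree zero are in `F^1` -/
lemma mem_filJ_one (z : (∀ j, N j → JPt k (K j)) →₀ ℚ) (hz : (z.sum fun _ c => c) = 0) :
    z ∈ filJ k K N 1 := by
  classical
  have h2 := deg_zero z hz
  rw [h2]
  apply Submodule.sum_mem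
  intro x _
  apply Submodule.smul_mem
  apply Submodule.mem_sup_right
  refine Submodule.subset_span ⟨fun _ => -x, x, ?_⟩
  rw [pont_succ, pont_zero, pont_zero, add_neg_cancel]

open TensorProduct in
/-- cycles of degree zero whose sum is zero are in `F^2` -/
lemma mem_filJ_two (z : (∀ j, N j → JPt k (K j)) →₀ ℚ) (hz : (z.sum fun _ c => c) = 0)
    (hs : (z.sum fun x c => (c ⊗ₜ[ℤ] x : ℚ ⊗[ℤ] (∀ j, N j → JPt k (K j)))) = 0) :
    z ∈ filJ k K N 2 := by
  classical
  rw [← Submodule.ker_mkQ (filJ k K N 2), LinearMap.mem_ker]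
  set L := (filJ k K N 2).mkQ with hL
  have hL0 : ∀ z, z ∈ filJ k K N 2 → L z = 0 := by
    intro z hz
    rw [hL, ← LinearMap.mem_ker, Submodule.ker_mkQ]; exact hz
  -- the additive map
  let T : (∀ j, N j → JPt k (K j)) →+ (((∀ j, N j → JPt k (K j)) →₀ ℚ) ⧸ filJ k K N 2) :=
    AddMonoidHom.mk' (fun x => L (Finsupp.single x 1 - Finsupp.single 0 1)) (by
      intro x y
      rw [← sub_eq_zero, ← map_add, ← map_sub]
      apply hL0
      apply Submodule.mem_sup_right
      refine Submodule.subset_span ⟨![x, y], 0, ?_⟩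
      rw [pont_succ, pont_succ, pont_succ, pont_zero, pont_zero, pont_zero, pont_zero]
      simp only [Matrix.cons_val_zero, Matrix.cons_val_succ, zero_add]
      abel)
  let T' : (ℚ ⊗[ℤ] (∀ j, N j → JPt k (K j))) →+ (((∀ j, N j → JPt k (K j)) →₀ ℚ) ⧸ filJ k K N 2) :=
    TensorProduct.liftAddHom
      ((AddMonoidHom.mk' (fun c : ℚ => (AddMonoidHom.mk' (fun x => c • T x) (by
        intro x y; rw [map_add, smul_add]))) (by
        intro c d
        ext x
        simp [add_smul])) : ℚ →+ (∀ j, N j → JPt k (K j)) →+ _) (by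
      intro r c x
      simp only [AddMonoidHom.mk'_apply]
      rw [map_zsmul, smul_comm, smul_assoc])
  have hT' : ∀ c x, T' (c ⊗ₜ[ℤ] x) = c • T x := fun c x => rfl
  have h2 := deg_zero z hz
  have h4 := congrArg T' hs
  rw [map_zero] at h4
  rw [← h4]
  conv_lhs => rw [h2]
  unfold Finsupp.sum
  rw [map_sum, map_sum]
  apply Finset.sum_congr rfl
  intro x _
  rw [map_smul]
  beta_reduce
  rw [hT']
  rfl

variable [IsAlgClosed k]

/-- the points are generated by those of the factors -/
lemma closure_emj [Finite J] [∀ j, Finite (N j)] :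
    AddSubgroup.closure {y : ∀ j, N j → JPt k (K j) | ∃ (q : Σ j, N j) (α : JPt k (K q.1)),
      y = emj q q.1 α} = ⊤ := by
  classical
  have : Fintype J := Fintype.ofFinite J
  have : ∀ j, Fintype (N j) := fun j => Fintype.ofFinite _
  rw [eq_top_iff]
  intro x _
  rw [sum_emj x]
  exact AddSubgroup.sum_mem _ (fun p _ => AddSubgroup.subset_closure ⟨p, _, rfl⟩)

/-- The filtration is finite: `F^i = 0` for `i` larger than the dimension. -/
theorem filJ_large {g : J → ℕ} (hg : ∀ j, IsGenus k (K j) (g j)) [Fintype J] [∀ j, Fintype (N j)]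
    {i : ℕ} (hi : ∑ j, g j * Fintype.card (N j) < i) :
    filJ k K N i = ratTriv (prodJ (k := k) K N) := by
  classical
  apply le_antisymm _ (ratTriv_le_filJ i)
  unfold filJ
  refine sup_le le_rfl ?_
  rw [Submodule.span_le]
  rintro _ ⟨a, x, rfl⟩
  rw [SetLike.mem_coe, ← Submodule.ker_mkQ (ratTriv (prodJ (k := k) K N)), LinearMap.mem_ker]
  set L := (ratTriv (prodJ (k := k) K N)).mkQ with hL
  have hL0 : ∀ z, z ∈ ratTriv (prodJ (k := k) K N) → L z = 0 := by
    intro z hz
    rw [hL, ← LinearMap.mem_ker, Submodule.ker_mkQ]; exact hz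
  rw [L_pont]
  refine DS_gen (fnL L) _ closure_emj ?_ a x
  intro a ha x
  choose p α hpα using ha
  -- the pigeonhole principle
  obtain ⟨q, hq⟩ : ∃ q : Σ j, N j, g q.1 < (univ.filter (fun l => p l = q)).card := by
    by_contra hc
    push Not at hc
    have h1 : i = ∑ q : Σ j, N j, (univ.filter (fun l => p l = q)).card := by
      have h2 := Finset.card_eq_sum_card_fiberwise (s := (univ : Finset (Fin i)))
        (t := (univ : Finset (Σ j, N j))) (f := p) (fun _ _ => Finset.mem_coe.2 (Finset.mem_univ _))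
      rw [Finset.card_univ, Fintype.card_fin] at h2
      exact h2
    have h2 : ∑ q : Σ j, N j, g q.1 = ∑ j, g j * Fintype.card (N j) := by
      rw [Fintype.sum_sigma]
      apply Finset.sum_congr rfl
      intro j _
      change ∑ _y : N j, g j = _
      rw [Finset.sum_const, Finset.card_univ, smul_eq_mul, mul_comm]
    have h3 := Finset.sum_le_sum (fun (q : Σ j, N j) (_ : q ∈ univ) => hc q)
    rw [← h1, h2] at h3
    omega
  obtain ⟨S, hS, hScard⟩ := Finset.exists_subset_card_eq (Nat.succ_le_of_lt hq)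
  have hSq : ∀ l ∈ S, p l = q := fun l hl => (Finset.mem_filter.1 (hS hl)).2
  let β : Fin i → JPt k (K q.1) := fun l => if h : p l = q then h ▸ α l else 0
  refine bloch_univ hg L hL0 S q.1 hScard (univ : Finset (Fin 1)) (fun _ => q) β a ?_ x
  intro l hl
  rw [Fintype.sum_unique, hpα l]
  have h := hSq l hl
  have key : ∀ (p' : Σ j, N j) (α' : JPt k (K p'.1)) (h : p' = q),
      emj p' p'.1 α' = emj q q.1 (h ▸ α') := by
    rintro p' α' rfl
    rfl
  rw [key (p l) (α l) h]
  simp only [β]
  rw [dif_pos h]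

end

end Pool.Agent.Q145.JA
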