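import Pool.Agent.Q145.JA.Core
import Pool.Agent.Q70.CH.Prod2

/-!
# Jacobians, and Bloch's theorem for them
-/

set_option autoImplicit false
set_option linter.unusedSectionVars false

namespace Pool.Agent.Q145.JA

open Finset FF Pool.Agent.Q70.CH

noncomputable section

variable (k : Type) [Field k] [CharZero k] (K : Type) [Field K] [Algebra k K]

/-- the principal divisors -/
def principal [IsFF k K] : AddSubgroup (Place k K →₀ ℤ) :=
  AddSubgroup.closure {D | ∃ t : K, t ≠ 0 ∧ D = divisor k t}

/-- The Picard group of the curve: divisors modulo principal divisors. -/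
abbrev Pic [IsFF k K] : Type := (Place k K →₀ ℤ) ⧸ principal k K

variable {k K}

/-- the class of the divisor `P - P'` -/
def dif [IsFF k K] (P P' : Place k K) : Pic k K :=
  QuotientAddGroup.mk' (principal k K) (Finsupp.single P 1 - Finsupp.single P' 1)

variable (k K)

/-- The points of the Jacobian: the subgroup of the Picard group generated by the classes of the
divisors `P - P'`, that is, the classes of the divisors of degree zero. -/
def Pic0 [IsFF k K] : AddSubgroup (Pic k K) :=
  AddSubgroup.closure {x | ∃ P P' : Place k K, x = dif P P'}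

/-- The type of the points of the Jacobian. -/
def JPt [IsFF k K] : Type := Pic0 k K

instance [IsFF k K] : AddCommGroup (JPt k K) := inferInstanceAs (AddCommGroup (Pic0 k K))

variable {k K}

/-- the class of a point of the Jacobian -/
def JPt.cls [IsFF k K] (x : JPt k K) : Pic k K := (x : Pic0 k K).1

lemma JPt.ext [IsFF k K] {x y : JPt k K} (h : x.cls = y.cls) : x = y := Subtype.ext h

/-- the point of the Jacobian given by `P - P'` -/
def ab [IsFF k K] (P P' : Place k K) : JPt k K :=
  (⟨dif P P', AddSubgroup.subset_closure ⟨P, P', rfl⟩⟩ : Pic0 k K)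

variable (k K)

/-- The Jacobian of the curve with function field `K`: its points are those of `Pic0`; the maps from
a curve `C_B` are the finite sums of the maps `Q ↦ [u(Q) - u'(Q)]`, where `u` and `u'` are morphisms
from `C_B` to the curve (every morphism from a curve to the Jacobian becomes of this form after a
finite base change, so that these maps define rational equivalence with rational coefficients). -/
@[reducible] def jac [IsFF k K] : Sp k where
  pts := JPt k K
  mor B _ _ := {s | ∃ (n : ℕ) (u u' : Fin n → Place k B → Place k K),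
    (∀ l, u l ∈ (curve (k := k) K).mor B) ∧ (∀ l, u' l ∈ (curve (k := k) K).mor B) ∧
    ∀ Q, s Q = ∑ l, ab (u l Q) (u' l Q)}

variable {k K}

section

variable [IsFF k K]

lemma ab_self (P : Place k K) : ab P P = 0 := by
  apply JPt.ext
  change dif P P = 0
  unfold dif
  rw [sub_self, map_zero]

lemma ab_add (P Q R : Place k K) : ab P Q + ab Q R = ab P R := by
  apply JPt.ext
  change dif P Q + dif Q R = dif P R
  unfold dif
  rw [← map_add]
  congr 1
  abel

lemma ab_neg (P Q : Place k K) : -ab P Q = ab Q P := by
  rw [neg_eq_iff_add_eq_zero, ab_add, ab_self]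

/-- the points of the Jacobian are generated by the differences with a base point -/
lemma closure_ab (o : Place k K) :
    AddSubgroup.closure {x : JPt k K | ∃ P : Place k K, x = ab P o} = ⊤ := by
  rw [eq_top_iff]
  rintro ⟨x, hx⟩ _
  have key : ∀ x ∈ Pic0 k K, ∃ y ∈ AddSubgroup.closure {x : JPt k K | ∃ P : Place k K, x = ab P o},
      y.cls = x := by
    intro x hx
    unfold Pic0 at hx
    induction hx using AddSubgroup.closure_induction with
    | mem x hx =>
      obtain ⟨P, P', rfl⟩ := hx
      refine ⟨ab P o - ab P' o, ?_, ?_⟩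
      · exact AddSubgroup.sub_mem _ (AddSubgroup.subset_closure ⟨P, rfl⟩)
          (AddSubgroup.subset_closure ⟨P', rfl⟩)
      · rw [sub_eq_add_neg, ab_neg, ab_add]
        rfl
    | zero => exact ⟨0, AddSubgroup.zero_mem _, rfl⟩
    | add x y _ _ hx hy =>
      obtain ⟨u, hu, rfl⟩ := hx
      obtain ⟨v, hv, rfl⟩ := hy
      exact ⟨u + v, AddSubgroup.add_mem _ hu hv, rfl⟩
    | neg x _ hx =>
      obtain ⟨u, hu, rfl⟩ := hx
      exact ⟨-u, AddSubgroup.neg_mem _ hu, rfl⟩
  obtain ⟨y, hy, hyx⟩ := key x hx
  have : y = (⟨x, hx⟩ : Pic0 k K) := JPt.ext hyx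
  rw [← this]
  exact hy

section mor

variable (B : Type) [Field B] [Algebra k B]

lemma jac_zero : (fun _ => 0) ∈ (jac k K).mor B :=
  ⟨0, Fin.elim0, Fin.elim0, fun l => l.elim0, fun l => l.elim0, fun Q => by simp⟩

lemma jac_ab {u u' : Place k B → Place k K} (hu : u ∈ (curve (k := k) K).mor B)
    (hu' : u' ∈ (curve (k := k) K).mor B) : (fun Q => ab (u Q) (u' Q)) ∈ (jac k K).mor B :=
  ⟨1, fun _ => u, fun _ => u', fun _ => hu, fun _ => hu', fun Q => by simp⟩

lemma jac_add {s s' : Place k B → JPt k K} (hs : s ∈ (jac k K).mor B)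
    (hs' : s' ∈ (jac k K).mor B) : (fun Q => s Q + s' Q) ∈ (jac k K).mor B := by
  obtain ⟨n, u, u', hu, hu', h⟩ := hs
  obtain ⟨n₁, v, v', hv, hv', h₁⟩ := hs'
  refine ⟨n + n₁, Fin.append u v, Fin.append u' v', ?_, ?_, ?_⟩
  · intro l
    refine Fin.addCases (fun l => ?_) (fun l => ?_) l
    · rw [Fin.append_left]; exact hu l
    · rw [Fin.append_right]; exact hv l
  · intro l
    refine Fin.addCases (fun l => ?_) (fun l => ?_) l
    · rw [Fin.append_left]; exact hu' l
    · rw [Fin.append_right]; exact hv' l
  · intro Q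
    beta_reduce
    rw [h, h₁, Fin.sum_univ_add]
    congr 1
    · apply Finset.sum_congr rfl
      intro l _
      rw [Fin.append_left, Fin.append_left]
    · apply Finset.sum_congr rfl
      intro l _
      rw [Fin.append_right, Fin.append_right]

lemma jac_neg {s : Place k B → JPt k K} (hs : s ∈ (jac k K).mor B) :
    (fun Q => -s Q) ∈ (jac k K).mor B := by
  obtain ⟨n, u, u', hu, hu', h⟩ := hs
  refine ⟨n, u', u, hu', hu, fun Q => ?_⟩
  beta_reduce
  rw [h, ← Finset.sum_neg_distrib]
  apply Finset.sum_congr rfl
  intro l _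
  rw [ab_neg]

lemma jac_nsmul {s : Place k B → JPt k K} (hs : s ∈ (jac k K).mor B) (n : ℕ) :
    (fun Q => n • s Q) ∈ (jac k K).mor B := by
  induction n with
  | zero => simpa using jac_zero B
  | succ n ih => simpa [succ_nsmul] using jac_add B ih hs

lemma jac_zsmul {s : Place k B → JPt k K} (hs : s ∈ (jac k K).mor B) (n : ℤ) :
    (fun Q => n • s Q) ∈ (jac k K).mor B := by
  obtain ⟨n, rfl | rfl⟩ := n.eq_nat_or_neg
  · simpa using jac_nsmul B hs n
  · simpa using jac_neg B (jac_nsmul B hs n)

lemma jac_sum {ι : Type} (S : Finset ι) {s : ι → Place k B → JPt k K}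
    (hs : ∀ l ∈ S, s l ∈ (jac k K).mor B) : (fun Q => ∑ l ∈ S, s l Q) ∈ (jac k K).mor B := by
  classical
  induction S using Finset.induction_on with
  | empty => simpa using jac_zero B
  | insert a S ha ih =>
    have h1 := jac_add B (hs a (Finset.mem_insert_self a S))
      (ih (fun l hl => hs l (Finset.mem_insert_of_mem hl)))
    simpa [Finset.sum_insert ha] using h1

lemma jac_const (x : JPt k K) (o : Place k K) : (fun _ => x) ∈ (jac k K).mor B := by
  have hx : x ∈ AddSubgroup.closure {x : JPt k K | ∃ P : Place k K, x = ab P o} := by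
    rw [closure_ab]; trivial
  induction hx using AddSubgroup.closure_induction with
  | mem x hx =>
    obtain ⟨P, rfl⟩ := hx
    exact jac_ab B (curve_const _ _ _) (curve_const _ _ _)
  | zero => exact jac_zero B
  | add x y _ _ hx hy => exact jac_add B hx hy
  | neg x _ hx => exact jac_neg B hx

end mor

end

end

end Pool.Agent.Q145.JA
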