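import Pool.Agent.Q145.JA.Bloch
import Pool.Agent.Q145.NC.Forms

/-!
# The generalized Bloch conjecture for zero-cycles: products of Jacobians and integral matrices
-/

set_option autoImplicit false
set_option linter.unusedSectionVars false

namespace Pool.Agent.Q145.JA

open Finset FF Pool.Agent.Q70.CH Pool.Agent.Q145.NC

noncomputable section

variable {k : Type} [Field k] [CharZero k] {J : Type} {K : J → Type} [∀ j, Field (K j)]
  [∀ j, Algebra k (K j)] [∀ j, IsFF k (K j)]

/-- A natural map from `∏ J(C_j) ^ (N j)` to `∏ J(C_j) ^ (M j)`: the composition of the homomorphism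
given by integral matrices and a translation. -/
structure AMap (k : Type) [Field k] [CharZero k] {J : Type} (K : J → Type) [∀ j, Field (K j)]
    [∀ j, Algebra k (K j)] [∀ j, IsFF k (K j)] (N M : J → Type) where
  /-- the matrices -/
  A : ∀ j, M j → N j → ℤ
  /-- the translation -/
  t : ∀ j, M j → JPt k (K j)

variable {N M : J → Type} [∀ j, Fintype (N j)]

/-- the homomorphism -/
def AMap.lin (F : AMap k K N M) : (∀ j, N j → JPt k (K j)) →+ (∀ j, M j → JPt k (K j)) where
  toFun x := fun j q => ∑ m, F.A j q m • x j m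
  map_zero' := by
    ext1 j
    ext1 q
    simp
  map_add' x y := by
    ext1 j
    ext1 q
    change ∑ m, F.A j q m • (x j m + y j m) = ∑ m, F.A j q m • x j m + ∑ m, F.A j q m • y j m
    rw [← Finset.sum_add_distrib]
    apply Finset.sum_congr rfl
    intro m _
    exact zsmul_add _ _ _

/-- the map on points -/
def AMap.map (F : AMap k K N M) (x : ∀ j, N j → JPt k (K j)) : ∀ j, M j → JPt k (K j) :=
  fun j q => ∑ m, F.A j q m • x j m + F.t j q

lemma AMap.map_eq (F : AMap k K N M) (x : ∀ j, N j → JPt k (K j)) : F.map x = F.lin x + F.t := rfl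

/-- the action on tangent vectors -/
def linT {g : J → ℕ} (A : ∀ j, M j → N j → ℤ) : TS k g N →ₗ[k] TS k g M where
  toFun v j q := ∑ m, (A j q m : k) • v j m
  map_add' v w := by
    ext j q c
    simp [Finset.sum_add_distrib]
  map_smul' r v := by
    ext j q c
    simp [Finset.mul_sum, mul_left_comm]

lemma AMap.isMap [IsAlgClosed k] (F : AMap k K N M) :
    IsMap (prodJ (k := k) K N) (prodJ K M) F.map := by
  intro B _ _ _ s hs j q
  obtain ⟨o, -⟩ := exists_place (k := k) (K := K j)
  refine jac_add B (s := fun Q => ∑ m, F.A j q m • s Q j m) ?_ (jac_const B _ o)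
  exact jac_sum B univ (s := fun m Q => F.A j q m • s Q j m)
    (fun m _ => jac_zsmul B (hs j m) (F.A j q m))

/-- The zero-cycle `[x] * ∏ ([0] - [a l]) = ∑_B (-1)^|B| [x + ∑_{l ∈ B} a l]`, where `*` is the
Pontryagin product. -/
def pont {Y : Type} [AddCommGroup Y] {i : ℕ} (a : Fin i → Y) (x : Y) : Y →₀ ℚ :=
  ∑ B : Finset (Fin i), ((-1 : ℚ) ^ B.card) • Finsupp.single (x + ∑ l ∈ B, a l) 1

/-- The step `F^i` of the filtration: the zero-cycles rationally equivalent to elements of the `i`-th
power of the augmentation ideal for the Pontryagin product. -/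
def filJ (k : Type) [Field k] [CharZero k] {J : Type} (K : J → Type) [∀ j, Field (K j)]
    [∀ j, Algebra k (K j)] [∀ j, IsFF k (K j)] (N : J → Type) (i : ℕ) :
    Submodule ℚ ((∀ j, N j → JPt k (K j)) →₀ ℚ) :=
  ratTriv (prodJ (k := k) K N) ⊔ Submodule.span ℚ {z | ∃ (a : Fin i → ∀ j, N j → JPt k (K j))
    (x : ∀ j, N j → JPt k (K j)), z = pont a x}

lemma map_pont (F : AMap k K N M) {i : ℕ} (a : Fin i → ∀ j, N j → JPt k (K j))
    (x : ∀ j, N j → JPt k (K j)) :
    (pont a x).mapDomain F.map = pont (fun l => F.lin (a l)) (F.map x) := by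
  unfold pont
  rw [Finsupp.mapDomain_finsetSum]
  apply Finset.sum_congr rfl
  intro B _
  rw [Finsupp.mapDomain_smul, Finsupp.mapDomain_single]
  congr 2
  rw [AMap.map_eq, AMap.map_eq, map_add, map_sum]
  abel

lemma L_pont {Y W : Type} [AddCommGroup Y] [AddCommGroup W] [Module ℚ W] {i : ℕ}
    (L : (Y →₀ ℚ) →ₗ[ℚ] W) (a : Fin i → Y) (x : Y) : L (pont a x) = DS (fnL L) univ a x := by
  unfold pont DS fnL
  rw [map_sum, Finset.powerset_univ]
  apply Finset.sum_congr rfl
  intro B _
  rw [map_smul]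

/-- the value of a matrix on a basis vector -/
lemma linT_vec {g : J → ℕ} (A : ∀ j, M j → N j → ℤ) (A' : (Σ j, M j) → (Σ j, N j) → ℤ)
    (hA' : ∀ j q m, A' ⟨j, q⟩ ⟨j, m⟩ = A j q m) (hA0 : ∀ q m, q.1 ≠ m.1 → A' q m = 0)
    (pm : Σ j, N j) (bm : Σ j, M j) (d e : ℕ) (he : e < g bm.1) :
    linT (k := k) (g := g) A (vec pm d) bm.1 bm.2 ⟨e, he⟩ = if e = d then (A' bm pm : k) else 0 := by
  classical
  change (∑ m', ((A bm.1 bm.2 m' : ℤ) : k) • vec (k := k) (g := g) pm d bm.1 m') ⟨e, he⟩ = _
  rw [Finset.sum_apply]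
  unfold vec
  obtain ⟨j, q⟩ := bm
  obtain ⟨j', m₀⟩ := pm
  by_cases hd : e = d
  · rw [if_pos hd]
    by_cases hj : j = j'
    · subst hj
      rw [hA', Finset.sum_eq_single m₀]
      · simp [hd]
      · intro m' _ hm'
        rw [Pi.smul_apply, if_neg, smul_zero]
        intro hc
        apply hm'
        have := hc.1
        simpa using this
      · intro hc; exact absurd (Finset.mem_univ _) hc
    · rw [hA0 _ _ hj, Int.cast_zero]
      apply Finset.sum_eq_zero
      intro m' _
      rw [Pi.smul_apply, if_neg, smul_zero]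
      intro hc
      exact hj (congrArg Sigma.fst hc.1)
  · rw [if_neg hd]
    apply Finset.sum_eq_zero
    intro m' _
    rw [Pi.smul_apply, if_neg, smul_zero]
    intro hc
    exact hd hc.2

/-- the combinatorial form of the vanishing on forms -/
lemma forms_combJ {i : ℕ} {g : J → ℕ} {R : Type} [Fintype R] (c : R → ℚ)
    (A : R → ∀ j, M j → N j → ℤ) (A' : R → (Σ j, M j) → (Σ j, N j) → ℤ)
    (hA' : ∀ r j q m, A' r ⟨j, q⟩ ⟨j, m⟩ = A r j q m)
    (h : ∀ (φ : TS k g M [⋀^Fin i]→ₗ[k] k) (v : Fin i → TS k g N),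
      ∑ r, (c r : k) * φ (fun l => linT (A r) (v l)) = 0)
    (p : Fin i → Σ j, N j) (b : Fin i → Σ j, M j)
    (hA0 : ∀ r q m, q.1 ≠ m.1 → A' r q m = 0)
    (c' d : Fin i → ℕ) (hc' : ∀ l, c' l < g (b l).1) :
    (∑ σ : Equiv.Perm (Fin i), if (fun l => d (σ l)) = c' then
        ((Equiv.Perm.sign σ : ℤ) : ℚ) * ∑ r, c r * ∏ l, (A' r (b l) (p (σ l)) : ℚ) else 0) = 0 := by
  classical
  have h1 := h (detF b (fun l => ⟨c' l, hc' l⟩)) (fun l => vec (p l) (d l))
  simp only [detF_apply] at h1
  have h2 : ∀ r (σ : Equiv.Perm (Fin i)), (∏ m, linT (k := k) (g := g) (A r)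
      (vec (p (σ m)) (d (σ m))) (b m).1 (b m).2 ⟨c' m, hc' m⟩) =
      if (fun l => d (σ l)) = c' then ((∏ l, (A' r (b l) (p (σ l)) : ℚ) : ℚ) : k) else 0 := by
    intro r σ
    have h3 : ∀ m, linT (k := k) (g := g) (A r) (vec (p (σ m)) (d (σ m))) (b m).1 (b m).2
        ⟨c' m, hc' m⟩ = if c' m = d (σ m) then (A' r (b m) (p (σ m)) : k) else 0 := by
      intro m
      exact linT_vec (A r) (A' r) (hA' r) (hA0 r) (p (σ m)) (b m) (d (σ m)) (c' m) (hc' m)
    simp only [h3]
    by_cases hdc : (fun l => d (σ l)) = c'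
    · rw [if_pos hdc, Rat.cast_prod]
      apply Finset.prod_congr rfl
      intro m _
      rw [if_pos (congrFun hdc m).symm]
      simp
    · rw [if_neg hdc]
      have : ∃ m, c' m ≠ d (σ m) := by
        by_contra hc
        push Not at hc
        exact hdc (funext fun m => (hc m).symm)
      obtain ⟨m, hm⟩ := this
      exact Finset.prod_eq_zero (Finset.mem_univ m) (if_neg hm)
  simp only [h2] at h1
  have h3 : (((∑ σ : Equiv.Perm (Fin i), if (fun l => d (σ l)) = c' then
        ((Equiv.Perm.sign σ : ℤ) : ℚ) * ∑ r, c r * ∏ l, (A' r (b l) (p (σ l)) : ℚ) else 0 : ℚ)) : k)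
      = 0 := by
    rw [← h1]
    simp only [Finset.mul_sum, mul_ite, mul_zero]
    rw [Finset.sum_comm, Rat.cast_sum]
    apply Finset.sum_congr rfl
    intro σ _
    split_ifs with h4
    · push_cast
      apply Finset.sum_congr rfl
      intro r _
      ring
    · simp
  exact_mod_cast h3

variable [IsAlgClosed k]

open Classical in
/-- the entries of the matrices as one matrix -/
def ent (A : ∀ j, M j → N j → ℤ) (q : Σ j, M j) (m : Σ j, N j) : ℤ :=
  if h : q.1 = m.1 then A m.1 (h ▸ q.2) m.2 else 0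

omit [∀ j, Fintype (N j)] in
lemma ent_same (A : ∀ j, M j → N j → ℤ) (j : J) (q : M j) (m : N j) :
    ent A ⟨j, q⟩ ⟨j, m⟩ = A j q m := by
  unfold ent
  rw [dif_pos rfl]

omit [∀ j, Fintype (N j)] in
lemma ent_ne (A : ∀ j, M j → N j → ℤ) (q : Σ j, M j) (m : Σ j, N j) (h : q.1 ≠ m.1) :
    ent A q m = 0 := by
  unfold ent
  rw [dif_neg h]

lemma lin_emj [Fintype J] [∀ j, Fintype (M j)] (F : AMap k K N M) (p : Σ j, N j)
    (α : Σ j, JPt k (K j)) (hα : α.1 = p.1) :
    F.lin (emj p α.1 α.2) = ∑ q : Σ j, M j, ent F.A q p • emj q α.1 α.2 := by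
  classical
  obtain ⟨j, α⟩ := α
  obtain ⟨j', m⟩ := p
  simp only at hα
  subst hα
  ext1 j'
  ext1 q
  rw [Finset.sum_apply, Finset.sum_apply]
  change ∑ m', F.A j' q m' • emj (⟨j, m⟩ : Σ j, N j) j α j' m' = _
  by_cases hj : j = j'
  · subst hj
    rw [Finset.sum_eq_single m, Finset.sum_eq_single ⟨j, q⟩]
    · rw [emj_same ⟨j, m⟩ α, Pi.smul_apply, Pi.smul_apply, emj_same ⟨j, q⟩ α, ent_same]
    · intro q' _ hq'
      rw [Pi.smul_apply, Pi.smul_apply, emj_ne q' j α j q hq', smul_zero]
    · intro hc; exact absurd (Finset.mem_univ _) hc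
    · intro m' _ hm'
      rw [emj_ne _ j α j m' (fun hc => hm' (by simpa using hc.symm)), smul_zero]
    · intro hc; exact absurd (Finset.mem_univ _) hc
  · rw [Finset.sum_eq_zero, Finset.sum_eq_zero]
    · intro q' _
      rw [Pi.smul_apply, Pi.smul_apply]
      by_cases hq' : q' = ⟨j', q⟩
      · subst hq'
        rw [emj_type _ j α hj]
        simp
      · rw [emj_ne q' j α j' q hq', smul_zero]
    · intro m' _
      rw [emj_ne _ j α j' m' (fun hc => hj (congrArg Sigma.fst hc)), smul_zero]

lemma sum_emj [Fintype J] (x : ∀ j, N j → JPt k (K j)) :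
    x = ∑ p : Σ j, N j, emj p p.1 (x p.1 p.2) := by
  classical
  ext1 j
  ext1 m
  rw [Finset.sum_apply, Finset.sum_apply, Finset.sum_eq_single ⟨j, m⟩]
  · rw [emj_same ⟨j, m⟩ (x j m)]
  · intro p _ hp
    exact emj_ne p p.1 _ j m hp
  · intro hc; exact absurd (Finset.mem_univ _) hc

/-- **The generalized Bloch conjecture for zero-cycles**: products of Jacobians and natural
correspondences. -/
theorem mainJ {g : J → ℕ} (hg : ∀ j, IsGenus k (K j) (g j)) [Finite J] [∀ j, Fintype (M j)]
    {i : ℕ} {R : Type} [Fintype R] (c : R → ℚ) (F : R → AMap k K N M)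
    (h : ∀ (φ : TS k g M [⋀^Fin i]→ₗ[k] k) (v : Fin i → TS k g N),
      ∑ r, (c r : k) * φ (fun l => linT (F r).A (v l)) = 0)
    (z : (∀ j, N j → JPt k (K j)) →₀ ℚ) (hz : z ∈ filJ k K N i) :
    ∑ r, c r • z.mapDomain (F r).map ∈ filJ k K M (i + 1) := by
  classical
  have : Fintype J := Fintype.ofFinite J
  let Z : ((∀ j, N j → JPt k (K j)) →₀ ℚ) →ₗ[ℚ] ((∀ j, M j → JPt k (K j)) →₀ ℚ) :=
    ∑ r, c r • Finsupp.lmapDomain ℚ ℚ (F r).map
  have hZ : ∀ z, Z z = ∑ r, c r • z.mapDomain (F r).map := by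
    intro z
    simp only [Z, LinearMap.sum_apply, LinearMap.smul_apply, Finsupp.lmapDomain_apply]
  rw [← hZ]
  have hle : filJ k K N i ≤ (filJ k K M (i + 1)).comap Z := by
    conv_lhs => unfold filJ
    rw [sup_le_iff]
    constructor
    · intro z hz
      rw [Submodule.mem_comap, hZ]
      apply Submodule.mem_sup_left
      apply Submodule.sum_mem
      intro r _
      exact Submodule.smul_mem _ _ (mapDomain_mem (F r).isMap hz)
    · rw [Submodule.span_le]
      rintro _ ⟨a, x, rfl⟩
      rw [SetLike.mem_coe, Submodule.mem_comap, hZ]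
      rw [← Submodule.ker_mkQ (filJ k K M (i + 1)), LinearMap.mem_ker]
      set L := (filJ k K M (i + 1)).mkQ with hL
      have hL0 : ∀ z, z ∈ filJ k K M (i + 1) → L z = 0 := by
        intro z hz
        rw [hL, ← LinearMap.mem_ker, Submodule.ker_mkQ]; exact hz
      have hΦ : ∀ (a : Fin (i + 1) → ∀ j, M j → JPt k (K j)) (x : ∀ j, M j → JPt k (K j)),
          DS (fnL L) univ a x = 0 := by
        intro a x
        rw [← L_pont]
        exact hL0 _ (Submodule.mem_sup_right (Submodule.subset_span ⟨a, x, rfl⟩))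
      have hLr : ∀ z ∈ ratTriv (prodJ (k := k) K M), L z = 0 :=
        fun z hz => hL0 z (Submodule.mem_sup_left hz)
      let ψ := psi hΦ
      have h1 : ∀ r, L ((pont a x).mapDomain (F r).map) = ψ (fun l => (F r).lin (a l)) := by
        intro r
        rw [map_pont, L_pont]
        exact psi_eq hΦ _ _
      rw [map_sum]
      simp only [map_smul, h1]
      -- expansion in the components of the `a l`
      have h2 : ∀ r, ψ (fun l => (F r).lin (a l)) =
          ∑ p : Fin i → Σ j, N j, ψ (fun l => (F r).lin (emj (p l) (p l).1 (a l (p l).1 (p l).2))) := by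
        intro r
        rw [← ψ.map_sum (fun l (p : Σ j, N j) => (F r).lin (emj p p.1 (a l p.1 p.2)))]
        congr 1
        ext1 l
        rw [← map_sum, ← sum_emj]
      simp only [h2, Finset.smul_sum]
      rw [Finset.sum_comm]
      apply Finset.sum_eq_zero
      intro p _
      have h3 : ∀ r, ψ (fun l => (F r).lin (emj (p l) (p l).1 (a l (p l).1 (p l).2))) =
          ψ (fun l => ∑ q : Σ j, M j, ent (F r).A q (p l) •
            emj q (p l).1 (a l (p l).1 (p l).2)) := by
        intro r
        congr 1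
        ext1 l
        exact lin_emj (F r) (p l) ⟨(p l).1, a l (p l).1 (p l).2⟩ rfl
      simp only [h3]
      exact coreA (κ := Σ j, M j) (ι := Σ j, N j) (P := fun j => JPt k (K j)) (R := R) ψ (psi_perm hΦ) (fun (q : Σ j, M j) (α : Σ j, JPt k (K j)) => emj q α.1 α.2)
        (fun p : Σ j, N j => p.1) (fun q : Σ j, M j => q.1) g c (fun r => ent (F r).A)
        (by
          intro r q p hne
          by_contra hc
          exact hne (ent_ne _ _ _ hc))
        (by
          intro S j hS b hb β hβ A hAS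
          -- transport of the points to the type `j`
          let β' : Fin i → JPt k (K j) := fun l => if h : (β l).1 = j then h ▸ (β l).2 else 0
          have hβ' : ∀ l ∈ S, ∀ q : Σ j, M j, emj q (β l).1 (β l).2 = emj q j (β' l) := by
            intro l hl q
            have hlj := hβ l hl
            have key : ∀ (γ : Σ j, JPt k (K j)) (hγ : γ.1 = j), emj q γ.1 γ.2 =
                emj q j (hγ ▸ γ.2) := by
              rintro ⟨j', γ⟩ hγ
              simp only at hγ
              subst hγ
              rfl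
            rw [key (β l) hlj]
            simp only [β']
            rw [dif_pos hlj]
          change DS (fnL L) (univ : Finset (Fin i)) _ 0 = 0
          refine bloch_univ hg L hLr S j hS A b β' _ ?_ 0
          intro l hl
          rw [if_pos hl]
          apply Finset.sum_congr rfl
          intro m _
          exact hβ' l hl (b m))
        p (fun l => ⟨(p l).1, a l (p l).1 (p l).2⟩) (fun l => rfl)
        (by
          intro b σ hbσ c' d hc' hd
          exact forms_combJ c (fun r => (F r).A) (fun r => ent (F r).A)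
            (fun r j q m => ent_same _ _ _ _) h (fun l => p (σ l)) b
            (fun r q m hne => ent_ne _ _ _ hne) c' d hc')
  exact hle hz

end

end Pool.Agent.Q145.JA
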