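import Pool.Agent.Q145.JA.Poly
import Pool.Agent.Q145.NC.Ker
import Pool.Agent.Q145.NC.Diff

/-!
# Polarization
-/

set_option autoImplicit false
set_option linter.unusedSectionVars false

namespace Pool.Agent.Q145.JA

open Finset Equiv Pool.Agent.Q70.CH Pool.Agent.Q145.NC

variable {Y W : Type*} [AddCommGroup Y] [AddCommGroup W] [Module ℚ W] {i : ℕ}

/-- **Polarization**: if the multilinear form vanishes whenever the arguments in the block `P` are the
partial sums `∑ m ∈ A, g l m`, then so does the sum over the permutations of the block. -/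
theorem polarize (ψ : MultilinearMap ℤ (fun _ : Fin i => Y) W) (P : Finset (Fin i))
    (g : Fin i → Fin i → Y)
    (h : ∀ A ⊆ P, ψ (fun l => if l ∈ P then ∑ m ∈ A, g l m else g l l) = 0) :
    ∑ π ∈ permsOn P, ψ (fun l => g l (π l)) = 0 := by
  classical
  let V : (Fin i → Fin i) → W := fun r => ψ (fun l => g l (r l))
  let S : Finset (Fin i) → Finset (Fin i → Fin i) :=
    fun A => Fintype.piFinset (fun l => if l ∈ P then A else {l})
  have hS : ∀ A ⊆ P, ∑ r ∈ S A, V r = 0 := by
    intro A hA
    rw [← h A hA]
    have h1 := ψ.map_sum_finset (fun l m => g l m) (fun l => if l ∈ P then A else {l})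
    simp only [V, S]
    rw [← h1]
    congr 1
    ext1 l
    by_cases hl : l ∈ P
    · rw [if_pos hl, if_pos hl]
    · rw [if_neg hl, if_neg hl, Finset.sum_singleton]
  let FB : Finset (Fin i) → W := fun B => ∑ r ∈ (S P).filter (fun r => P.image r = B), V r
  have hFB : ∀ A ⊆ P, ∑ B ∈ A.powerset, FB B = 0 := by
    intro A hA
    rw [← hS A hA]
    simp only [FB]
    rw [← Finset.sum_biUnion]
    · apply Finset.sum_congr _ (fun _ _ => rfl)
      ext r
      simp only [Finset.mem_biUnion, Finset.mem_powerset, Finset.mem_filter, S,
        Fintype.mem_piFinset]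
      constructor
      · rintro ⟨B, hB, h1, h2⟩ l
        by_cases hl : l ∈ P
        · rw [if_pos hl]
          apply hB
          rw [← h2]
          exact Finset.mem_image_of_mem r hl
        · have := h1 l
          rw [if_neg hl] at this ⊢
          exact this
      · intro h1
        refine ⟨P.image r, ?_, ?_, rfl⟩
        · intro m hm
          obtain ⟨l, hl, rfl⟩ := Finset.mem_image.1 hm
          have := h1 l
          rwa [if_pos hl] at this
        · intro l
          by_cases hl : l ∈ P
          · have := h1 l
            rw [if_pos hl] at this ⊢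
            exact hA this
          · have := h1 l
            rw [if_neg hl] at this ⊢
            exact this
    · intro B _ B' _ hBB
      rw [Function.onFun, Finset.disjoint_left]
      intro r hr hr'
      exact hBB ((Finset.mem_filter.1 hr).2.symm.trans (Finset.mem_filter.1 hr').2)
  have h1 : FB P = 0 := by
    have h2 := moebius (fun A => ((-1 : ℚ) ^ A.card) • FB A) P
    have h3 : ∑ T ∈ P.powerset, ((-1 : ℚ) ^ T.card) • ∑ A ∈ T.powerset,
        ((-1 : ℚ) ^ A.card) • ((-1 : ℚ) ^ A.card) • FB A = 0 := by
      apply Finset.sum_eq_zero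
      intro T hT
      have h4 : ∑ A ∈ T.powerset, ((-1 : ℚ) ^ A.card) • ((-1 : ℚ) ^ A.card) • FB A =
          ∑ A ∈ T.powerset, FB A := by
        apply Finset.sum_congr rfl
        intro A _
        rw [smul_smul, ← mul_pow, neg_one_mul, neg_neg, one_pow, one_smul]
      rw [h4, hFB T (Finset.mem_powerset.1 hT), smul_zero]
    rw [h3] at h2
    have h5 := congrArg (fun w => ((-1 : ℚ) ^ P.card) • w) h2
    simp only [smul_zero] at h5
    rw [smul_smul, ← mul_pow, neg_one_mul, neg_neg, one_pow, one_smul] at h5
    exact h5.symm
  rw [← h1]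
  simp only [FB]
  refine Finset.sum_bij (fun (π : Perm (Fin i)) _ => (π : Fin i → Fin i)) ?_ ?_ ?_ ?_
  · intro π hπ
    rw [Finset.mem_filter]
    constructor
    · simp only [S]
      rw [Fintype.mem_piFinset]
      intro l
      by_cases hl : l ∈ P
      · rw [if_pos hl]
        exact permsOn_map hπ hl
      · rw [if_neg hl, Finset.mem_singleton]
        exact mem_permsOn.1 hπ l hl
    · apply Finset.eq_of_subset_of_card_le
      · intro m hm
        obtain ⟨l, hl, rfl⟩ := Finset.mem_image.1 hm
        exact permsOn_map hπ hl
      · rw [Finset.card_image_of_injective _ π.injective]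
  · intro π _ π' _ h2
    exact Equiv.coe_fn_injective h2
  · intro r hr
    rw [Finset.mem_filter] at hr
    obtain ⟨hr1, hr2⟩ := hr
    simp only [S] at hr1
    rw [Fintype.mem_piFinset] at hr1
    have hoff : ∀ l ∉ P, r l = l := by
      intro l hl
      have := hr1 l
      rwa [if_neg hl, Finset.mem_singleton] at this
    have hsurj : Function.Surjective r := by
      intro m
      by_cases hm : m ∈ P
      · rw [← hr2] at hm
        obtain ⟨l, _, hl⟩ := Finset.mem_image.1 hm
        exact ⟨l, hl⟩
      · exact ⟨m, hoff m hm⟩
    have hbij : Function.Bijective r := Finite.surjective_iff_bijective.1 hsurj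
    refine ⟨Equiv.ofBijective r hbij, ?_, ?_⟩
    · rw [mem_permsOn]
      intro l hl
      exact hoff l hl
    · rfl
  · intro π _
    rfl

end Pool.Agent.Q145.JA
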