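import Mathlib

/-!
# Iterated differences of functions on abelian groups
-/

set_option autoImplicit false
set_option linter.unusedSectionVars false

namespace Pool.Agent.Q145.JA

open Finset

variable {Y W ι κ : Type*} [AddCommGroup Y] [AddCommGroup W] [Module ℚ W] [DecidableEq ι]
  [DecidableEq κ]

/-- the iterated difference -/
def DS (Φ : Y → W) (S : Finset ι) (a : ι → Y) (x : Y) : W :=
  ∑ B ∈ S.powerset, ((-1 : ℚ) ^ B.card) • Φ (x + ∑ l ∈ B, a l)

lemma DS_empty (Φ : Y → W) (a : ι → Y) (x : Y) : DS Φ ∅ a x = Φ x := by
  simp [DS]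

lemma DS_insert (Φ : Y → W) {l : ι} {S : Finset ι} (hl : l ∉ S) (a : ι → Y) (x : Y) :
    DS Φ (insert l S) a x = DS Φ S a x - DS Φ S a (x + a l) := by
  unfold DS
  rw [Finset.sum_powerset_insert hl, sub_eq_add_neg, ← Finset.sum_neg_distrib]
  congr 1
  apply Finset.sum_congr rfl
  intro B hB
  have hlB : l ∉ B := fun h => hl (Finset.mem_powerset.1 hB h)
  rw [Finset.card_insert_of_notMem hlB, pow_succ, mul_neg_one, neg_smul, Finset.sum_insert hlB,
    add_assoc]

lemma DS_congr (Φ : Y → W) {S : Finset ι} {a a' : ι → Y} (h : ∀ l ∈ S, a l = a' l) (x : Y) :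
    DS Φ S a x = DS Φ S a' x := by
  unfold DS
  apply Finset.sum_congr rfl
  intro B hB
  rw [Finset.sum_congr rfl (fun l hl => h l (Finset.mem_powerset.1 hB hl))]

lemma DS_map (Φ : Y → W) (e : ι ↪ κ) (S : Finset ι) (a : κ → Y) (x : Y) :
    DS Φ (S.map e) a x = DS Φ S (fun l => a (e l)) x := by
  unfold DS
  have : (S.map e).powerset = S.powerset.map ⟨Finset.map e, Finset.map_injective e⟩ := by
    ext A
    rw [Finset.mem_powerset, Finset.subset_map_iff]
    simp only [Finset.mem_map, Finset.mem_powerset, Function.Embedding.coeFn_mk]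
    exact exists_congr fun B => by rw [eq_comm (a := A)]
  rw [this, Finset.sum_map]
  apply Finset.sum_congr rfl
  intro B _
  simp only [Function.Embedding.coeFn_mk, Finset.card_map, Finset.sum_map]

lemma DS_perm [Fintype ι] (Φ : Y → W) (σ : Equiv.Perm ι) (a : ι → Y) (x : Y) :
    DS Φ univ (fun l => a (σ l)) x = DS Φ univ a x := by
  have := DS_map Φ σ.toEmbedding univ a x
  rw [Finset.map_univ_equiv] at this
  exact this.symm

lemma DS_slot (Φ : Y → W) {l : ι} {S : Finset ι} (hl : l ∈ S) (a : ι → Y) (x : Y) :
    DS Φ S a x = DS Φ (S.erase l) a x - DS Φ (S.erase l) a (x + a l) := by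
  rw [← DS_insert Φ (Finset.notMem_erase l S), Finset.insert_erase hl]

lemma DS_update (Φ : Y → W) {l : ι} {S : Finset ι} (hl : l ∈ S) (a : ι → Y) (u x : Y) :
    DS Φ S (Function.update a l u) x =
      DS Φ (S.erase l) a x - DS Φ (S.erase l) a (x + u) := by
  rw [DS_slot Φ hl, Function.update_self]
  congr 1
  · apply DS_congr
    intro m hm
    rw [Function.update_of_ne (Finset.ne_of_mem_erase hm)]
  · apply DS_congr
    intro m hm
    rw [Function.update_of_ne (Finset.ne_of_mem_erase hm)]

lemma DS_union (Φ : Y → W) (S₁ S₂ : Finset ι) (h : Disjoint S₁ S₂) (a : ι → Y) (x : Y) :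
    DS Φ (S₁ ∪ S₂) a x = DS (fun x => DS Φ S₁ a x) S₂ a x := by
  induction S₂ using Finset.induction_on generalizing x with
  | empty => rw [Finset.union_empty, DS_empty]
  | insert l S hl ih =>
    have h1 : l ∉ S₁ := fun hc => Finset.disjoint_left.1 h hc (Finset.mem_insert_self l S)
    have h2 : Disjoint S₁ S :=
      Finset.disjoint_of_subset_right (Finset.subset_insert l S) h
    rw [Finset.union_insert, DS_insert Φ (by simp [h1, hl]), DS_insert _ hl, ih h2, ih h2]

/-- **Generation**: if the iterated differences vanish for the elements of a generating set, they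
vanish. -/
lemma DS_gen [Fintype ι] (Φ : Y → W) (𝒢 : Set Y) (h𝒢 : AddSubgroup.closure 𝒢 = ⊤)
    (h : ∀ a : ι → Y, (∀ l, a l ∈ 𝒢) → ∀ x, DS Φ univ a x = 0) (a : ι → Y) (x : Y) :
    DS Φ univ a x = 0 := by
  have key : ∀ T : Finset ι, ∀ a : ι → Y, (∀ l ∉ T, a l ∈ 𝒢) → ∀ x, DS Φ univ a x = 0 := by
    intro T
    induction T using Finset.induction_on with
    | empty =>
      intro a ha x
      exact h a (fun l => ha l (Finset.notMem_empty l)) x
    | insert l T hl ih =>
      intro a ha
      have hmem : a l ∈ AddSubgroup.closure 𝒢 := by rw [h𝒢]; trivial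
      have h1 : ∀ u ∈ AddSubgroup.closure 𝒢, ∀ x, DS Φ univ (Function.update a l u) x = 0 := by
        intro u hu
        induction hu using AddSubgroup.closure_induction with
        | mem u hu =>
          intro x
          refine ih _ ?_ x
          intro m hm
          by_cases hml : m = l
          · subst hml
            rw [Function.update_self]
            exact hu
          · rw [Function.update_of_ne hml]
            exact ha m (by simp [hml, hm])
        | zero =>
          intro x
          rw [DS_update Φ (Finset.mem_univ l), add_zero, sub_self]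
        | add u v _ _ hu hv =>
          intro x
          have h2 := hu x
          have h3 := hv (x + u)
          rw [DS_update Φ (Finset.mem_univ l)] at h2 h3 ⊢
          rw [← add_assoc]
          have h4 := congrArg₂ (· + ·) h2 h3
          simp only [add_zero] at h4
          rw [← h4]
          abel
        | neg u _ hu =>
          intro x
          have h2 := hu (x - u)
          rw [DS_update Φ (Finset.mem_univ l)] at h2 ⊢
          rw [sub_add_cancel] at h2
          rw [← sub_eq_add_neg, ← neg_eq_zero, neg_sub]
          exact h2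
      intro x
      have h2 := h1 (a l) hmem x
      rwa [Function.update_eq_self] at h2
  exact key univ a (fun l hl => absurd (Finset.mem_univ l) hl) x

section multi

variable {i : ℕ} {Φ : Y → W} (hΦ : ∀ (a : Fin (i + 1) → Y) (x : Y), DS Φ univ a x = 0)

include hΦ

lemma DS_indep (a : Fin i → Y) (x x' : Y) : DS Φ univ a x = DS Φ univ a x' := by
  have h := hΦ (Fin.cons (x' - x) a) x
  have h0 : (0 : Fin (i + 1)) ∈ (univ : Finset (Fin (i + 1))) := Finset.mem_univ _
  rw [DS_slot Φ h0, Fin.cons_zero, add_sub_cancel] at h
  have h1 : (univ : Finset (Fin (i + 1))).erase 0 = univ.map (Fin.succEmb i) := by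
    ext l
    refine Fin.cases ?_ (fun l => ?_) l
    · simp
    · simp
  rw [h1, DS_map, DS_map, sub_eq_zero] at h
  exact h

lemma DS_add (a : Fin i → Y) (l : Fin i) (u v : Y) : DS Φ univ (Function.update a l (u + v)) 0 =
    DS Φ univ (Function.update a l u) 0 + DS Φ univ (Function.update a l v) 0 := by
  rw [DS_indep hΦ (Function.update a l v) 0 u, DS_update Φ (Finset.mem_univ l),
    DS_update Φ (Finset.mem_univ l), DS_update Φ (Finset.mem_univ l), zero_add, zero_add]
  abel

/-- the multilinear form attached to a function whose iterated differences of order `i + 1`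
vanish -/
def psi : MultilinearMap ℤ (fun _ : Fin i => Y) W where
  toFun a := DS Φ univ a 0
  map_update_add' := by
    intro inst a l u v
    have : inst = instDecidableEqFin i := Subsingleton.elim _ _
    subst this
    exact DS_add hΦ a l u v
  map_update_smul' := by
    intro inst a l c u
    have : inst = instDecidableEqFin i := Subsingleton.elim _ _
    subst this
    let F : Y →+ W := AddMonoidHom.mk' (fun u => DS Φ univ (Function.update a l u) 0)
      (DS_add hΦ a l)
    exact map_zsmul F c u

lemma psi_apply (a : Fin i → Y) : psi hΦ a = DS Φ univ a 0 := rfl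

lemma psi_eq (a : Fin i → Y) (x : Y) : DS Φ univ a x = psi hΦ a := DS_indep hΦ a x 0

lemma psi_perm (a : Fin i → Y) (σ : Equiv.Perm (Fin i)) : psi hΦ (fun l => a (σ l)) = psi hΦ a :=
  DS_perm Φ σ a 0

end multi

end Pool.Agent.Q145.JA
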